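import Pool.Agent.Lib.MP_bb1fdc_al.Defs

/-!
# Balls
-/

namespace Pool.Agent.Lib.MP_bb1fdc_al

variable {G H Q : Type} [Group G] [Group H] [Group Q]

theorem ball_mono (S : Set G) {m n : ℕ} (h : m ≤ n) : ball S m ⊆ ball S n := by
  rintro g ⟨l, hl, hS, rfl⟩
  exact ⟨l, hl.trans h, hS, rfl⟩

theorem one_mem_ball (S : Set G) (n : ℕ) : (1 : G) ∈ ball S n :=
  ⟨[], Nat.zero_le _, fun _ hx => absurd hx (List.not_mem_nil), rfl⟩

theorem mul_mem_ball {S : Set G} {m n : ℕ} {g h : G} (hg : g ∈ ball S m) (hh : h ∈ ball S n) :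
    g * h ∈ ball S (m + n) := by
  obtain ⟨l, hl, hS, rfl⟩ := hg
  obtain ⟨l', hl', hS', rfl⟩ := hh
  refine ⟨l ++ l', ?_, ?_, List.prod_append⟩
  · rw [List.length_append]
    omega
  · intro x hx
    rcases List.mem_append.1 hx with h | h
    · exact hS x h
    · exact hS' x h

private theorem Ball_inv {S : Set G} {n : ℕ} {g : G} (hg : g ∈ ball S n) : g⁻¹ ∈ ball S n := by
  obtain ⟨l, hl, hS, rfl⟩ := hg
  refine ⟨(l.map fun x => x⁻¹).reverse, ?_, ?_, (List.prod_inv_reverse l).symm⟩
  · rw [List.length_reverse, List.length_map]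
    exact hl
  · intro x hx
    rw [List.mem_reverse, List.mem_map] at hx
    obtain ⟨y, hy, rfl⟩ := hx
    rcases hS y hy with h | h
    · right
      rw [inv_inv]
      exact h
    · left
      exact h

/-- (induction on `n`: `ball S (n+1)` is contained in a finite union) -/
theorem ball_finite {S : Set G} (hS : S.Finite) (n : ℕ) : (ball S n).Finite := by
  have hfin : {x : G | x ∈ S ∨ x⁻¹ ∈ S}.Finite := by
    have h1 : {x : G | x ∈ S ∨ x⁻¹ ∈ S} = S ∪ (fun x => x⁻¹) '' S := by
      ext x
      constructor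
      · rintro (h | h)
        · exact Or.inl h
        · exact Or.inr ⟨x⁻¹, h, inv_inv x⟩
      · rintro (h | ⟨y, hy, rfl⟩)
        · exact Or.inl h
        · right
          show (y⁻¹)⁻¹ ∈ S
          rw [inv_inv]
          exact hy
    rw [h1]
    exact hS.union (hS.image _)
  have hF : Finite {x : G // x ∈ S ∨ x⁻¹ ∈ S} := hfin
  have h2 := (List.finite_length_le {x : G // x ∈ S ∨ x⁻¹ ∈ S} n).image
    fun l => (l.map Subtype.val).prod
  refine h2.subset ?_
  rintro g ⟨l, hl, hS', rfl⟩
  lift l to List {x : G // x ∈ S ∨ x⁻¹ ∈ S} using hS'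
  refine ⟨l, ?_, rfl⟩
  rw [List.length_map] at hl
  exact hl

/-- every element lies in some ball of a generating set -/
theorem exists_mem_ball {S : Set G} (hS : Subgroup.closure S = ⊤) (g : G) :
    ∃ n, g ∈ ball S n := by
  have hg : g ∈ Subgroup.closure S := by
    rw [hS]
    exact Subgroup.mem_top g
  induction hg using Subgroup.closure_induction with
  | mem x hx =>
    refine ⟨1, [x], le_rfl, ?_, List.prod_singleton⟩
    intro y hy
    rw [List.mem_singleton] at hy
    rw [hy]
    exact Or.inl hx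
  | one => exact ⟨0, one_mem_ball S 0⟩
  | mul x y _ _ hx hy =>
    obtain ⟨m, hm⟩ := hx
    obtain ⟨n, hn⟩ := hy
    exact ⟨m + n, mul_mem_ball hm hn⟩
  | inv x _ hx =>
    obtain ⟨m, hm⟩ := hx
    exact ⟨m, Ball_inv hm⟩

/-- if `S` (and hence its inverses) lies in the ball of radius `C` of `T`, then the balls of `S`
lie in balls of `T` -/
theorem ball_subset_ball {S T : Set G} {C : ℕ} (h : S ⊆ ball T C) (n : ℕ) :
    ball S n ⊆ ball T (C * n) := by
  have key : ∀ l : List G, (∀ x ∈ l, x ∈ S ∨ x⁻¹ ∈ S) → l.prod ∈ ball T (C * l.length) := by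
    intro l
    induction l with
    | nil =>
      intro _
      exact one_mem_ball T _
    | cons a l ih =>
      intro hl
      have h1 : a ∈ ball T C := by
        rcases hl a List.mem_cons_self with h2 | h2
        · exact h h2
        · have h3 := Ball_inv (h h2)
          rwa [inv_inv] at h3
      have h2 := ih fun x hx => hl x (List.mem_cons_of_mem _ hx)
      have h3 := mul_mem_ball h1 h2
      rw [List.prod_cons, List.length_cons, Nat.mul_succ, Nat.add_comm]
      exact h3
  rintro g ⟨l, hl, hS, rfl⟩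
  exact ball_mono T (Nat.mul_le_mul_left C hl) (key l hS)

end Pool.Agent.Lib.MP_bb1fdc_al
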