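import Pool.Agent.Lib.MP_bb1fdc_al.Ball

/-!
# Local embeddings and LEF growth: general facts
-/

namespace Pool.Agent.Lib.MP_bb1fdc_al

variable {G H Q : Type} [Group G] [Group H] [Group Q]

theorem LocalEmb.mono {F F' : Set G} {π : G → Q} (h : LocalEmb F π) (hF : F' ⊆ F) :
    LocalEmb F' π := by
  exact ⟨h.inj.mono hF, fun g hg k hk hgk => h.mul g (hF hg) k (hF hk) (hF hgk)⟩

/-- upper bounds: one local embedding into a finite group -/
theorem lefGrowth_le [Finite Q] {S : Set G} {n : ℕ} {π : G → Q} (h : LocalEmb (ball S n) π) :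
    lefGrowth S n ≤ Nat.card Q := by
  exact Nat.sInf_le ⟨Q, inferInstance, inferInstance, π, h, rfl⟩

private lemma basic_nonempty (hG : IsLEF G) {S : Set G} (hS : S.Finite) (n : ℕ) :
    {q | ∃ (Q : Type) (_ : Group Q) (_ : Finite Q) (π : G → Q),
      LocalEmb (ball S n) π ∧ Nat.card Q = q}.Nonempty := by
  obtain ⟨Q, i1, i2, π, hπ⟩ := hG (ball S n) (ball_finite hS n)
  exact ⟨Nat.card Q, Q, i1, i2, π, hπ, rfl⟩

/-- lower bounds -/
theorem le_lefGrowth (hG : IsLEF G) {S : Set G} (hS : S.Finite) {n q : ℕ}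
    (h : ∀ (Q : Type) (_ : Group Q) (_ : Finite Q) (π : G → Q), LocalEmb (ball S n) π →
      q ≤ Nat.card Q) : q ≤ lefGrowth S n := by
  refine le_csInf (basic_nonempty hG hS n) ?_
  rintro q' ⟨Q, i1, i2, π, hπ, rfl⟩
  exact h Q i1 i2 π hπ

/-- the value is attained -/
theorem lefGrowth_spec (hG : IsLEF G) {S : Set G} (hS : S.Finite) (n : ℕ) :
    ∃ (Q : Type) (_ : Group Q) (_ : Finite Q) (π : G → Q),
      LocalEmb (ball S n) π ∧ Nat.card Q = lefGrowth S n := by
  exact Nat.sInf_mem (basic_nonempty hG hS n)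

theorem lefGrowth_mono (hG : IsLEF G) {S : Set G} (hS : S.Finite) {m n : ℕ} (h : m ≤ n) :
    lefGrowth S m ≤ lefGrowth S n := by
  obtain ⟨Q, i1, i2, π, hπ, hc⟩ := lefGrowth_spec hG hS n
  rw [← hc]
  exact lefGrowth_le (hπ.mono (ball_mono S h))

/-- change of the generating set -/
theorem lefGrowth_le_of_subset (hG : IsLEF G) {S T : Set G} (hT : T.Finite) {C : ℕ}
    (h : S ⊆ ball T C) (n : ℕ) : lefGrowth S n ≤ lefGrowth T (C * n) := by
  obtain ⟨Q, i1, i2, π, hπ, hc⟩ := lefGrowth_spec hG hT (C * n)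
  rw [← hc]
  exact lefGrowth_le (hπ.mono (ball_subset_ball h n))

/-- any two finite generating sets have equivalent growth -/
theorem exists_lefGrowth_le (hG : IsLEF G) {S T : Set G} (hS : FinGen S) (hT : FinGen T) :
    ∃ C : ℕ, 1 ≤ C ∧ ∀ n, lefGrowth S n ≤ lefGrowth T (C * n) := by
  choose f hf using exists_mem_ball hT.2
  refine ⟨hS.1.toFinset.sup f + 1, Nat.le_add_left _ _, fun n => ?_⟩
  refine lefGrowth_le_of_subset hG hT.1 (fun g hg => ?_) n
  have h1 : f g ≤ hS.1.toFinset.sup f := Finset.le_sup (hS.1.mem_toFinset.2 hg)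
  exact ball_mono T (h1.trans (Nat.le_succ _)) (hf g)

private lemma basic_mem (e : G ≃* H) {S : Set G} {n : ℕ} {g : G} (hg : g ∈ ball S n) :
    e g ∈ ball (e '' S) n := by
  obtain ⟨l, h1, h2, rfl⟩ := hg
  refine ⟨l.map e, by rwa [List.length_map], ?_, (map_list_prod e l).symm⟩
  intro x hx
  obtain ⟨y, hy, rfl⟩ := List.mem_map.1 hx
  rcases h2 y hy with h3 | h3
  · exact Or.inl ⟨y, h3, rfl⟩
  · exact Or.inr ⟨y⁻¹, h3, map_inv e y⟩

private lemma basic_equiv (e : G ≃* H) (S : Set G) (n : ℕ) :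
    {q | ∃ (Q : Type) (_ : Group Q) (_ : Finite Q) (π : H → Q),
      LocalEmb (ball (e '' S) n) π ∧ Nat.card Q = q} ⊆
    {q | ∃ (Q : Type) (_ : Group Q) (_ : Finite Q) (π : G → Q),
      LocalEmb (ball S n) π ∧ Nat.card Q = q} := by
  rintro q ⟨Q, i1, i2, π, hπ, hc⟩
  refine ⟨Q, i1, i2, fun g => π (e g), ⟨?_, ?_⟩, hc⟩
  · intro g hg h hh hgh
    exact e.injective (hπ.inj (basic_mem e hg) (basic_mem e hh) hgh)
  · intro g hg h hh hgh
    have h1 := basic_mem e hgh
    rw [map_mul] at h1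
    change π (e (g * h)) = _
    rw [map_mul]
    exact hπ.mul _ (basic_mem e hg) _ (basic_mem e hh) h1

/-- transport along an isomorphism -/
theorem lefGrowth_equiv (e : G ≃* H) (S : Set G) (n : ℕ) :
    lefGrowth (e '' S) n = lefGrowth S n := by
  have h1 := basic_equiv e S n
  have h2 := basic_equiv e.symm (e '' S) n
  have h3 : e.symm '' (e '' S) = S := by
    rw [← Set.image_comp]
    have : (e.symm : H → G) ∘ (e : G → H) = id := funext fun g => e.symm_apply_apply g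
    rw [this, Set.image_id]
  rw [h3] at h2
  unfold lefGrowth
  rw [Set.Subset.antisymm h1 h2]

end Pool.Agent.Lib.MP_bb1fdc_al
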