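import Mathlib

/-!
# Counting permutations that preserve fibres
-/

namespace Pool.Agent.Lib.MP_bb1fdc_al

open Nat

/-- the permutations of a finite set that preserve all fibres of a map with `r` fibres of size `m`
(`DomMulAct.stabilizer_card` in Mathlib) -/
theorem card_fibre_perm {X Y : Type} [Fintype X] [DecidableEq X] [Fintype Y] [DecidableEq Y]
    (f : X → Y) (m : ℕ) (hm : ∀ y, Fintype.card {x // f x = y} = m) :
    Nat.card {g : Equiv.Perm X // ∀ x, f (g x) = f x} = (m !) ^ Fintype.card Y := by
  have h1 : Nat.card {g : Equiv.Perm X // ∀ x, f (g x) = f x} =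
      Fintype.card {g : Equiv.Perm X // f ∘ g = f} := by
    rw [Nat.card_eq_fintype_card]
    apply Fintype.card_congr
    apply Equiv.subtypeEquivRight
    intro g
    constructor
    · intro h
      funext x
      exact h x
    · intro h x
      exact congrFun h x
  rw [h1, DomMulAct.stabilizer_card]
  simp only [hm, Finset.prod_const, Finset.card_univ]

end Pool.Agent.Lib.MP_bb1fdc_al
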