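import Pool.Agent.Lib.MP_bb1fdc_al.Cl
import Pool.Agent.Lib.MP_bb1fdc_al.CardFib

/-!
# The order of Cl
-/

namespace Pool.Agent.Lib.MP_bb1fdc_al

open Nat

private theorem Card_fibre (N r : ℕ) (h : r ∣ N) [NeZero r] [NeZero N] (y : ZMod r) :
    Fintype.card {x : ZMod N // ZMod.castHom h (ZMod r) x = y} = N / r := by
  classical
  set f : ZMod N →+ ZMod r := (ZMod.castHom h (ZMod r)).toAddMonoidHom with hf
  have hsurj : ∀ z : ZMod r, z ∈ Set.range f := fun z => ZMod.castHom_surjective h z
  have h1 : ∀ z : ZMod r, (Finset.univ.filter (fun x : ZMod N => f x = z)).card =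
      (Finset.univ.filter (fun x : ZMod N => f x = y)).card := fun z =>
    AddMonoidHom.card_fiber_eq_of_mem_range f (hsurj z) (hsurj y)
  have h2 : (Finset.univ : Finset (ZMod N)).card =
      ∑ z : ZMod r, (Finset.univ.filter (fun x : ZMod N => f x = z)).card :=
    Finset.card_eq_sum_card_fiberwise (fun x _ => Finset.mem_univ _)
  rw [Finset.sum_congr rfl (fun z _ => h1 z), Finset.sum_const, Finset.card_univ,
    Finset.card_univ, ZMod.card, ZMod.card, smul_eq_mul] at h2
  rw [Fintype.card_subtype]
  change (Finset.univ.filter (fun x : ZMod N => f x = y)).card = N / r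
  have hr : 0 < r := Nat.pos_of_ne_zero (NeZero.ne r)
  exact (Nat.div_eq_of_eq_mul_right hr h2).symm

/-- (the shift `c` takes at most `r` values; composing with `tt N ^ (-c)` the elements of `Cl` with
shift `c` correspond to those with shift `0`, and these are counted by `card_fibre_perm`) -/
theorem card_Cl_le (N r : ℕ) (h : r ∣ N) (hr : 0 < r) (hN : 0 < N) :
    Nat.card (Cl N r h) ≤ r * ((N / r) !) ^ r := by
  classical
  have : NeZero r := ⟨hr.ne'⟩
  have : NeZero N := ⟨hN.ne'⟩
  set f : ZMod N → ZMod r := fun x => ZMod.castHom h (ZMod r) x with hf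
  have hfib := card_fibre_perm f (N / r) (fun y => Card_fibre N r h y)
  rw [ZMod.card] at hfib
  have hcv : ∀ c : ZMod r, f ((c.val : ℕ) : ZMod N) = c := by
    intro c
    change ZMod.castHom h (ZMod r) ((c.val : ℕ) : ZMod N) = c
    rw [map_natCast]
    exact ZMod.natCast_zmod_val c
  have hsub : ∀ x y : ZMod N, f (x - y) = f x - f y := fun x y => map_sub _ x y
  have hadd : ∀ x y : ZMod N, f (x + y) = f x + f y := fun x y => map_add _ x y
  have hex : ∀ g : Cl N r h, ∃ c : ZMod r, ∀ x, f ((g : Equiv.Perm (ZMod N)) x) = f x + c :=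
    fun g => g.2
  choose c hc using hex
  let Φ : Cl N r h → ZMod r × {g : Equiv.Perm (ZMod N) // ∀ x, f (g x) = f x} := fun g =>
    (c g, ⟨(g : Equiv.Perm (ZMod N)).trans (Equiv.subRight (((c g).val : ℕ) : ZMod N)), by
      intro x
      rw [Equiv.trans_apply, Equiv.subRight_apply, hsub, hc, hcv]
      ring⟩)
  have hΦ : Function.Injective Φ := by
    intro g g' hgg
    have h1 : c g = c g' := congrArg Prod.fst hgg
    have h2 := congrArg (fun q => (q.2 : Equiv.Perm (ZMod N))) hgg
    simp only [Φ] at h2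
    apply Subtype.ext
    ext x
    have h3 := congrArg (fun e : Equiv.Perm (ZMod N) => e x) h2
    simp only [Equiv.trans_apply, Equiv.subRight_apply, h1] at h3
    exact sub_left_injective h3
  calc Nat.card (Cl N r h)
      ≤ Nat.card (ZMod r × {g : Equiv.Perm (ZMod N) // ∀ x, f (g x) = f x}) :=
        Nat.card_le_card_of_injective Φ hΦ
    _ = r * ((N / r) !) ^ r := by rw [Nat.card_prod, hfib, Nat.card_zmod]

end Pool.Agent.Lib.MP_bb1fdc_al
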