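import Pool.Agent.Lib.MP_bb1fdc_al.Cyc

/-!
# The permutations of ZMod N that shift the classes modulo r
-/

namespace Pool.Agent.Lib.MP_bb1fdc_al

open Nat

/-- the permutations `g` of `ZMod N` with `g x = x + c` modulo `r` for some `c` -/
def Cl (N r : ℕ) (h : r ∣ N) : Subgroup (Equiv.Perm (ZMod N)) where
  carrier := {g | ∃ c : ZMod r, ∀ x, ZMod.castHom h (ZMod r) (g x) = ZMod.castHom h (ZMod r) x + c}
  one_mem' := by
    exact ⟨0, fun x => by rw [Equiv.Perm.one_apply, add_zero]⟩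
  mul_mem' := by
    rintro a b ⟨c, hc⟩ ⟨d, hd⟩
    exact ⟨d + c, fun x => by rw [Equiv.Perm.mul_apply, hc, hd, add_assoc]⟩
  inv_mem' := by
    rintro g ⟨c, hc⟩
    refine ⟨-c, fun x => ?_⟩
    have h1 := hc (g⁻¹ x)
    have h2 : g (g⁻¹ x) = x := g.apply_symm_apply x
    rw [h2] at h1
    rw [h1, add_neg_cancel_right]

theorem tt_mem_Cl (N r : ℕ) (h : r ∣ N) : tt N ∈ Cl N r h := by
  refine ⟨1, fun x => ?_⟩
  have h1 : (tt N) x = x + 1 := rfl
  rw [h1, map_add, map_one]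

theorem aa_mem_Cl (N r : ℕ) (h : r ∣ N) : aa N r ∈ Cl N r h := by
  refine ⟨0, fun x => ?_⟩
  have hr : ZMod.castHom h (ZMod r) (r : ZMod N) = 0 := by
    rw [map_natCast, ZMod.natCast_self]
  rw [add_zero]
  unfold aa
  by_cases h0 : x = 0
  · rw [h0, Equiv.swap_apply_left, hr, map_zero]
  · by_cases h1 : x = (r : ZMod N)
    · rw [h1, Equiv.swap_apply_right, hr, map_zero]
    · rw [Equiv.swap_apply_of_ne_of_ne h0 h1]

end Pool.Agent.Lib.MP_bb1fdc_al
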