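import Mathlib

/-!
# The commutator of two transpositions
-/

namespace Pool.Agent.Lib.MP_bb1fdc_al

/-- the commutator of two transpositions `(p, q)`, `(p, q')` -/
def com3 {P : Type} [DecidableEq P] (p q q' : P) : Equiv.Perm P :=
  Equiv.swap p q * Equiv.swap p q' * Equiv.swap p q * Equiv.swap p q'

theorem mul_com3 {P : Type} [DecidableEq P] (g : Equiv.Perm P) (p q q' : P) :
    g * com3 p q q' = com3 (g p) (g q) (g q') * g := by
  unfold com3
  have h : ∀ x y : P, g * Equiv.swap x y = Equiv.swap (g x) (g y) * g :=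
    fun x y => Equiv.mul_swap_eq_swap_mul g x y
  calc g * (Equiv.swap p q * Equiv.swap p q' * Equiv.swap p q * Equiv.swap p q')
      = (g * Equiv.swap p q) * Equiv.swap p q' * Equiv.swap p q * Equiv.swap p q' := by
        simp only [mul_assoc]
    _ = Equiv.swap (g p) (g q) * (g * Equiv.swap p q') * Equiv.swap p q * Equiv.swap p q' := by
        rw [h]; simp only [mul_assoc]
    _ = Equiv.swap (g p) (g q) * Equiv.swap (g p) (g q') * (g * Equiv.swap p q) *
          Equiv.swap p q' := by
        rw [h]; simp only [mul_assoc]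
    _ = Equiv.swap (g p) (g q) * Equiv.swap (g p) (g q') * Equiv.swap (g p) (g q) *
          (g * Equiv.swap p q') := by
        rw [h]; simp only [mul_assoc]
    _ = _ := by rw [h]; simp only [mul_assoc]

/-- `com3 p q q'` moves exactly `p, q, q'` -/
theorem com3_apply_ne_iff {P : Type} [DecidableEq P] {p q q' : P} (h1 : p ≠ q) (h2 : p ≠ q')
    (h3 : q ≠ q') (z : P) : com3 p q q' z ≠ z ↔ z = p ∨ z = q ∨ z = q' := by
  unfold com3
  simp only [Equiv.Perm.mul_apply]
  by_cases hz1 : z = p
  · subst hz1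
    rw [Equiv.swap_apply_left, Equiv.swap_apply_of_ne_of_ne h2.symm h3.symm, Equiv.swap_apply_right,
      Equiv.swap_apply_left]
    simp [h1.symm]
  by_cases hz2 : z = q
  · subst hz2
    rw [Equiv.swap_apply_of_ne_of_ne h1.symm h3, Equiv.swap_apply_right, Equiv.swap_apply_left,
      Equiv.swap_apply_of_ne_of_ne h2.symm h3.symm]
    simp [h3.symm]
  by_cases hz3 : z = q'
  · subst hz3
    rw [Equiv.swap_apply_right, Equiv.swap_apply_left, Equiv.swap_apply_of_ne_of_ne h1.symm h3,
      Equiv.swap_apply_right]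
    simp [h2]
  rw [Equiv.swap_apply_of_ne_of_ne hz1 hz3, Equiv.swap_apply_of_ne_of_ne hz1 hz2,
    Equiv.swap_apply_of_ne_of_ne hz1 hz3, Equiv.swap_apply_of_ne_of_ne hz1 hz2]
  simp [hz1, hz2, hz3]

end Pool.Agent.Lib.MP_bb1fdc_al
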