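import Pool.Agent.Lib.MP_bb1fdc_al.Defs

/-!
# A lower bound for the order of a finite group through a conjugation action
-/

namespace Pool.Agent.Lib.MP_bb1fdc_al

/-- The set of the `g : G0` for which there is `q` with `q * π (x c) = π (x (act g c)) * q` for all
`c` is a subgroup containing `gen`, hence everything; choose such a `q g`.  Then
`(g, z) ↦ q g * π z` is injective on `G0 × Z`. -/
theorem card_ge_of_conj {Γ Q : Type} [Group Γ] [Group Q] [Finite Q] {F : Set Γ} {π : Γ → Q}
    (hπ : LocalEmb F π) {G0 τ : Type} [Group G0] [Finite G0] (act : G0 → τ → τ)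
    (hone : ∀ c, act 1 c = c) (hmul : ∀ g h c, act (g * h) c = act g (act h c))
    (x : τ → Γ) (gen : Set G0) (hgen : Subgroup.closure gen = ⊤) (y : G0 → Γ)
    (hx : ∀ c, x c ∈ F) (hy : ∀ g ∈ gen, y g ∈ F) (hyx : ∀ g ∈ gen, ∀ c, y g * x c ∈ F)
    (hrel : ∀ g ∈ gen, ∀ c, y g * x c = x (act g c) * y g)
    (hfaith : ∀ g g' : G0, (∀ c, x (act g c) = x (act g' c)) → g = g')
    (Z : Set Γ) (hZ : Z ⊆ F) (hzx : ∀ z ∈ Z, ∀ c, z * x c ∈ F)
    (hcomm : ∀ z ∈ Z, ∀ c, z * x c = x c * z) :
    Nat.card G0 * Nat.card Z ≤ Nat.card Q := by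
  classical
  -- the subgroup of the elements realised by conjugation
  let K : Subgroup G0 :=
    { carrier := {g | ∃ q : Q, ∀ c, q * π (x c) = π (x (act g c)) * q}
      one_mem' := ⟨1, fun c => by rw [hone, one_mul, mul_one]⟩
      mul_mem' := by
        rintro g h ⟨q, hq⟩ ⟨q', hq'⟩
        refine ⟨q * q', fun c => ?_⟩
        rw [mul_assoc, hq', ← mul_assoc, hq, hmul, mul_assoc]
      inv_mem' := by
        rintro g ⟨q, hq⟩
        refine ⟨q⁻¹, fun c => ?_⟩
        have h1 := hq (act g⁻¹ c)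
        rw [← hmul, mul_inv_cancel, hone] at h1
        rw [inv_mul_eq_iff_eq_mul, ← mul_assoc, h1, mul_assoc, mul_inv_cancel, mul_one] }
  have hK : K = ⊤ := by
    rw [eq_top_iff, ← hgen, Subgroup.closure_le]
    intro g hg
    refine ⟨π (y g), fun c => ?_⟩
    have h1 := hyx g hg c
    rw [← hπ.mul _ (hy g hg) _ (hx c) h1, hrel g hg c]
    rw [hrel g hg c] at h1
    exact hπ.mul _ (hx _) _ (hy g hg) h1
  have hq : ∀ g : G0, ∃ q : Q, ∀ c, q * π (x c) = π (x (act g c)) * q := by
    intro g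
    have : g ∈ K := by rw [hK]; exact Subgroup.mem_top g
    exact this
  choose q hq using hq
  have hz : ∀ z ∈ Z, ∀ c, π z * π (x c) = π (x c) * π z := by
    intro z hz c
    have h1 := hzx z hz c
    rw [← hπ.mul _ (hZ hz) _ (hx c) h1, hcomm z hz c]
    rw [hcomm z hz c] at h1
    exact hπ.mul _ (hx c) _ (hZ hz) h1
  have hinj : Function.Injective (fun u : G0 × Z => q u.1 * π u.2) := by
    rintro ⟨g, z, hzZ⟩ ⟨g', z', hzZ'⟩ h
    simp only at h
    have key : ∀ (g : G0) (z : Γ), z ∈ Z → ∀ c,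
        (q g * π z) * π (x c) = π (x (act g c)) * (q g * π z) := by
      intro g z hzZ c
      rw [mul_assoc, hz z hzZ c, ← mul_assoc, hq, mul_assoc]
    have hgg : g = g' := by
      refine hfaith g g' (fun c => ?_)
      refine hπ.inj (hx _) (hx _) ?_
      have h1 := key g z hzZ c
      rw [h, key g' z' hzZ' c] at h1
      exact (mul_right_cancel h1).symm
    subst hgg
    have hzz : z = z' := hπ.inj (hZ hzZ) (hZ hzZ') (mul_left_cancel h)
    subst hzz
    rfl
  rw [← Nat.card_prod]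
  exact Nat.card_le_card_of_injective _ hinj

end Pool.Agent.Lib.MP_bb1fdc_al
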