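import Pool.Agent.Lib.MP_bb1fdc_al.Words

/-!
# The permutations of ZMod N generated by the shift and a transposition
-/

namespace Pool.Agent.Lib.MP_bb1fdc_al

/-- the shift `x ↦ x + 1` of `ZMod N` -/
def tt (N : ℕ) : Equiv.Perm (ZMod N) := Equiv.addRight 1

/-- the transposition `(0 r)` of `ZMod N` -/
def aa (N r : ℕ) : Equiv.Perm (ZMod N) := Equiv.swap 0 (r : ZMod N)

/-- the value of a word in the permutations of `ZMod N` -/
def evC (N r : ℕ) (w : List (Fin 3)) : Equiv.Perm (ZMod N) := ev (tt N) (aa N r) w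

theorem aa_mul_aa (N r : ℕ) : aa N r * aa N r = 1 := by
  exact Equiv.swap_mul_self _ _

theorem tt_pow_apply (N p : ℕ) (x : ZMod N) : (tt N ^ p) x = x + (p : ZMod N) := by
  induction p generalizing x with
  | zero => simp
  | succ p ih =>
    rw [pow_succ, Equiv.Perm.mul_apply, ih]
    have : (tt N) x = x + 1 := rfl
    rw [this]
    push_cast
    ring

theorem tt_zpow_apply (N : ℕ) (p : ℤ) (x : ZMod N) : (tt N ^ p) x = x + (p : ZMod N) := by
  obtain ⟨n, rfl | rfl⟩ := p.eq_nat_or_neg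
  · rw [zpow_natCast, tt_pow_apply]
    push_cast
    rfl
  · rw [zpow_neg, zpow_natCast, Equiv.Perm.inv_eq_iff_eq, tt_pow_apply]
    push_cast
    ring

theorem tt_pow_eq_one {N p : ℕ} (h : N ∣ p) : tt N ^ p = 1 := by
  ext x
  rw [tt_pow_apply, (ZMod.natCast_eq_zero_iff p N).2 h, add_zero]
  rfl

/-- the conjugate of a transposition by a power of the shift -/
theorem conj_swap (N : ℕ) (p : ℤ) (x y : ZMod N) :
    tt N ^ p * Equiv.swap x y * (tt N ^ p)⁻¹ = Equiv.swap (x + p) (y + p) := by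
  have h := Equiv.swap_apply_apply (tt N ^ p) x y
  rw [tt_zpow_apply, tt_zpow_apply] at h
  exact h.symm

theorem conj_swap_nat (N p : ℕ) (x y : ZMod N) :
    tt N ^ p * Equiv.swap x y * (tt N ^ p)⁻¹ = Equiv.swap (x + p) (y + p) := by
  have h := conj_swap N (p : ℤ) x y
  rw [zpow_natCast] at h
  simpa using h

end Pool.Agent.Lib.MP_bb1fdc_al
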