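import Mathlib

/-!
# LEF growth: definitions
-/

namespace Pool.Agent.Lib.MP_bb1fdc_al

/-- The closed ball of radius `n` about `1` in the word metric of `S`. -/
def ball {G : Type} [Group G] (S : Set G) (n : ℕ) : Set G :=
  {g | ∃ l : List G, l.length ≤ n ∧ (∀ x ∈ l, x ∈ S ∨ x⁻¹ ∈ S) ∧ l.prod = g}

/-- `π` restricted to `F` is a local embedding (an injective partial homomorphism) into `Q`. -/
structure LocalEmb {G Q : Type} [Group G] [Group Q] (F : Set G) (π : G → Q) : Prop where
  inj : Set.InjOn π F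
  mul : ∀ g ∈ F, ∀ h ∈ F, g * h ∈ F → π (g * h) = π g * π h

/-- `G` is LEF: every finite subset has a local embedding into a finite group. -/
def IsLEF (G : Type) [Group G] : Prop :=
  ∀ F : Set G, F.Finite → ∃ (Q : Type) (_ : Group Q) (_ : Finite Q) (π : G → Q), LocalEmb F π

/-- `G` is residually finite. -/
def IsResFin (G : Type) [Group G] : Prop :=
  ∀ g : G, g ≠ 1 → ∃ (Q : Type) (_ : Group Q) (_ : Finite Q) (f : G →* Q), f g ≠ 1

/-- The LEF growth of `G` with respect to `S`: the least order of a finite group into which the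
ball of radius `n` has a local embedding. -/
noncomputable def lefGrowth {G : Type} [Group G] (S : Set G) (n : ℕ) : ℕ :=
  sInf {q | ∃ (Q : Type) (_ : Group Q) (_ : Finite Q) (π : G → Q),
    LocalEmb (ball S n) π ∧ Nat.card Q = q}

/-- `f ⪯ g`: there is `C > 0` with `f x ≤ g (C x)` for all real `x > 0`, where a function on the
natural numbers is extended to `(0, ∞)` by making it constant on each interval `(n, n + 1]`. -/
def Prec (f g : ℕ → ℕ) : Prop :=
  ∃ C : ℝ, 0 < C ∧ ∀ x : ℝ, 0 < x → f ⌈x⌉₊ ≤ g ⌈C * x⌉₊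

/-- `S` is a finite generating set of `G`. -/
def FinGen {G : Type} [Group G] (S : Set G) : Prop :=
  S.Finite ∧ Subgroup.closure S = ⊤

end Pool.Agent.Lib.MP_bb1fdc_al
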