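import Pool.Agent.Lib.MP_bb1fdc_al.Words
import Pool.Agent.Lib.MP_bb1fdc_al.Basic

/-!
# Groups with the same short relations
-/

namespace Pool.Agent.Lib.MP_bb1fdc_al

variable {G H : Type} [Group G] [Group H]

private theorem ev_eq_iff {t a : G} {t' a' : H} (ha : a * a = 1) (ha' : a' * a' = 1) {n : ℕ}
    (h : ∀ w : List (Fin 3), w.length ≤ 3 * n → (ev t a w = 1 ↔ ev t' a' w = 1))
    {u v : List (Fin 3)} (huv : u.length + v.length ≤ 3 * n) :
    ev t a u = ev t a v ↔ ev t' a' u = ev t' a' v := by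
  have h1 := h (iw u ++ v) (by rw [List.length_append, length_iw]; exact huv)
  rw [ev_append, ev_append, ev_iw ha, ev_iw ha', inv_mul_eq_one, inv_mul_eq_one] at h1
  exact h1

/-- If the same words of length at most `3 n` are trivial in `G` and in `H`, then the ball of radius
`n` of `G` has a local embedding into `H` which respects words.  (Choose for every `g` in the ball a
word; two words for the same `g` have the same value in `H`.) -/
theorem exists_localEmb {t a : G} {t' a' : H} (ha : a * a = 1) (ha' : a' * a' = 1) (n : ℕ)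
    (h : ∀ w : List (Fin 3), w.length ≤ 3 * n → (ev t a w = 1 ↔ ev t' a' w = 1)) :
    ∃ π : G → H, LocalEmb (ball {t, a} n) π ∧
      ∀ w : List (Fin 3), w.length ≤ n → π (ev t a w) = ev t' a' w := by
  classical
  have hex : ∀ g : G, ∃ w : List (Fin 3), g ∈ ball {t, a} n → w.length ≤ n ∧ ev t a w = g := by
    intro g
    by_cases hg : g ∈ ball {t, a} n
    · obtain ⟨w, hw⟩ := (mem_ball_iff ha).1 hg
      exact ⟨w, fun _ => hw⟩
    · exact ⟨[], fun h => absurd h hg⟩
  choose W hW using hex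
  refine ⟨fun g => ev t' a' (W g), ⟨?_, ?_⟩, ?_⟩
  · intro g hg g' hg' hgg
    obtain ⟨h1, h2⟩ := hW g hg
    obtain ⟨h3, h4⟩ := hW g' hg'
    rw [← h2, ← h4]
    exact (ev_eq_iff ha ha' h (by omega)).2 hgg
  · intro g hg g' hg' hgg
    obtain ⟨h1, h2⟩ := hW g hg
    obtain ⟨h3, h4⟩ := hW g' hg'
    obtain ⟨h5, h6⟩ := hW _ hgg
    show ev t' a' (W (g * g')) = ev t' a' (W g) * ev t' a' (W g')
    rw [← ev_append]
    refine (ev_eq_iff ha ha' h (by rw [List.length_append]; omega)).1 ?_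
    rw [ev_append, h2, h4, h6]
  · intro w hw
    obtain ⟨h1, h2⟩ := hW (ev t a w) (ev_mem_ball t a hw)
    exact (ev_eq_iff ha ha' h (by omega)).1 h2

theorem lefGrowth_le_card [Finite H] {t a : G} {t' a' : H} (ha : a * a = 1) (ha' : a' * a' = 1)
    (n : ℕ) (h : ∀ w : List (Fin 3), w.length ≤ 3 * n → (ev t a w = 1 ↔ ev t' a' w = 1)) :
    lefGrowth {t, a} n ≤ Nat.card H := by
  obtain ⟨π, hπ, _⟩ := exists_localEmb ha ha' n h
  exact lefGrowth_le hπ

/-- (compose a best local embedding of the ball of `H` with the one of `exists_localEmb`) -/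
theorem lefGrowth_le_lefGrowth (hH : IsLEF H) {t a : G} {t' a' : H} (ha : a * a = 1)
    (ha' : a' * a' = 1) (n : ℕ)
    (h : ∀ w : List (Fin 3), w.length ≤ 3 * n → (ev t a w = 1 ↔ ev t' a' w = 1)) :
    lefGrowth {t, a} n ≤ lefGrowth {t', a'} n := by
  obtain ⟨π, hπ, hw⟩ := exists_localEmb ha ha' n h
  have hfin : ({t', a'} : Set H).Finite := Set.toFinite _
  obtain ⟨Q, hQ, hQf, π', hπ', hcard⟩ := lefGrowth_spec hH hfin n
  have hmem : ∀ g ∈ ball {t, a} n, π g ∈ ball {t', a'} n := by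
    intro g hg
    obtain ⟨w, h1, h2⟩ := (mem_ball_iff ha).1 hg
    rw [← h2, hw w h1]
    exact ev_mem_ball t' a' h1
  rw [← hcard]
  refine lefGrowth_le (π := fun g => π' (π g)) ⟨?_, ?_⟩
  · intro g hg g' hg' hgg
    exact hπ.inj hg hg' (hπ'.inj (hmem g hg) (hmem g' hg') hgg)
  · intro g hg g' hg' hgg
    show π' (π (g * g')) = π' (π g) * π' (π g')
    rw [hπ.mul g hg g' hg' hgg]
    refine hπ'.mul _ (hmem g hg) _ (hmem g' hg') ?_
    rw [← hπ.mul g hg g' hg' hgg]
    exact hmem _ hgg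

end Pool.Agent.Lib.MP_bb1fdc_al
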