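import Mathlib

/-!
# Generation of products of symmetric groups; permutations and triples
-/

namespace Pool.Agent.Lib.MP_bb1fdc_al

/-- the transpositions in the factors generate a product of symmetric groups
(`Subgroup.pi_mem_of_mulSingle_mem`, `Equiv.Perm.closure_isSwap`) -/
theorem closure_mulSingle_swap (R M : ℕ) :
    Subgroup.closure {g : Fin R → Equiv.Perm (Fin M) | ∃ (c : Fin R) (u v : Fin M), u ≠ v ∧
      g = Pi.mulSingle c (Equiv.swap u v)} = ⊤ := by
  classical
  set S : Set (Fin R → Equiv.Perm (Fin M)) := {g | ∃ (c : Fin R) (u v : Fin M), u ≠ v ∧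
    g = Pi.mulSingle c (Equiv.swap u v)} with hS
  rw [eq_top_iff]
  intro f _
  refine Subgroup.pi_mem_of_mulSingle_mem f fun c => ?_
  have h1 : ∀ σ : Equiv.Perm (Fin M), Pi.mulSingle c σ ∈ Subgroup.closure S := by
    intro σ
    have hσ : σ ∈ Subgroup.closure {τ : Equiv.Perm (Fin M) | τ.IsSwap} := by
      rw [Equiv.Perm.closure_isSwap]
      exact Subgroup.mem_top σ
    induction hσ using Subgroup.closure_induction with
    | mem τ hτ =>
      obtain ⟨u, v, huv, rfl⟩ := hτ
      exact Subgroup.subset_closure ⟨c, u, v, huv, rfl⟩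
    | one =>
      rw [Pi.mulSingle_one]
      exact Subgroup.one_mem _
    | mul x y _ _ hx hy =>
      rw [Pi.mulSingle_mul]
      exact Subgroup.mul_mem _ hx hy
    | inv x _ hx =>
      rw [Pi.mulSingle_inv]
      exact Subgroup.inv_mem _ hx
  exact h1 (f c)

/-- Two permutations with the same images of all three-element sets are equal. -/
theorem perm_eq_of_triples {M : ℕ} (hM : 4 ≤ M) (g g' : Equiv.Perm (Fin M))
    (h : ∀ u v w : Fin M, u ≠ v → u ≠ w → v ≠ w →
      ({g u, g v, g w} : Set (Fin M)) = {g' u, g' v, g' w}) : g = g' := by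
  classical
  -- the images of all triples agree, hence so do their complements' pairwise intersections
  have hcard : ∀ S : Finset (Fin M), S.card < 4 → ∃ x, x ∉ S := by
    intro S hS
    by_contra hx
    push Not at hx
    have : S = Finset.univ := Finset.eq_univ_iff_forall.mpr hx
    rw [this, Finset.card_univ, Fintype.card_fin] at hS
    omega
  refine Equiv.ext fun u => ?_
  obtain ⟨v, hv⟩ := hcard {u} (by simp)
  have huv : u ≠ v := fun h => hv (by simp [h])
  obtain ⟨w, hw⟩ := hcard {u, v} (lt_of_le_of_lt (Finset.card_le_two) (by norm_num))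
  have huw : u ≠ w := fun h => hw (by simp [h])
  have hvw : v ≠ w := fun h => hw (by simp [h])
  obtain ⟨x, hx⟩ := hcard {u, v, w} (lt_of_le_of_lt (Finset.card_le_three) (by norm_num))
  have hux : u ≠ x := fun h => hx (by simp [h])
  have hvx : v ≠ x := fun h => hx (by simp [h])
  have hwx : w ≠ x := fun h => hx (by simp [h])
  -- `g u` lies in the three triples `{u,v,w}`, `{u,v,x}`, `{u,w,x}`
  have h1 : g u ∈ ({g' u, g' v, g' w} : Set (Fin M)) := by
    rw [← h u v w huv huw hvw]
    simp
  have h2 : g u ∈ ({g' u, g' v, g' x} : Set (Fin M)) := by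
    rw [← h u v x huv hux hvx]
    simp
  have h3 : g u ∈ ({g' u, g' w, g' x} : Set (Fin M)) := by
    rw [← h u w x huw hux hwx]
    simp
  simp only [Set.mem_insert_iff, Set.mem_singleton_iff] at h1 h2 h3
  rcases h1 with h1 | h1 | h1
  · exact h1
  · rcases h3 with h3 | h3 | h3
    · exact h3
    · exact absurd (g'.injective (h1.symm.trans h3)) hvw
    · exact absurd (g'.injective (h1.symm.trans h3)) hvx
  · rcases h2 with h2 | h2 | h2
    · exact h2
    · exact absurd (g'.injective (h2.symm.trans h1)) hvw
    · exact absurd (g'.injective (h1.symm.trans h2)) hwx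

end Pool.Agent.Lib.MP_bb1fdc_al
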