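import Mathlib

/-!
# An almost disjoint family
-/

namespace Pool.Agent.Lib.MP_bb1fdc_al

open Nat Cardinal

/-- the set of the codes of the initial segments of `f` -/
noncomputable def segs (f : ℕ → Bool) : Set ℕ :=
  Set.range (fun n : ℕ => Encodable.encode (List.ofFn (fun i : Fin n => f i)))

theorem segs_eq {f g : ℕ → Bool} {n m : ℕ}
    (h : Encodable.encode (List.ofFn (fun i : Fin n => f i)) =
      Encodable.encode (List.ofFn (fun i : Fin m => g i))) : n = m ∧ ∀ i < n, f i = g i := by
  have h1 := Encodable.encode_injective h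
  have h2 : n = m := by
    have := congrArg List.length h1
    simpa using this
  subst h2
  refine ⟨rfl, fun i hi => ?_⟩
  have h3 := List.ofFn_injective h1
  exact congrFun h3 ⟨i, hi⟩

theorem segs_diff {f g : ℕ → Bool} (h : f ≠ g) : (segs f \ segs g).Infinite := by
  obtain ⟨i, hi⟩ := Function.ne_iff.1 h
  have hinj : Function.Injective
      (fun n : ℕ => Encodable.encode (List.ofFn (fun j : Fin (i + 1 + n) => f j))) := by
    intro a b hab
    have := (segs_eq hab).1
    omega
  refine (Set.infinite_range_of_injective hinj).mono ?_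
  rintro _ ⟨n, rfl⟩
  refine ⟨⟨i + 1 + n, rfl⟩, ?_⟩
  rintro ⟨m, hm⟩
  have h1 := segs_eq hm.symm
  exact hi (h1.2 i (by omega))

/-- a family of continuum many sets of natural numbers with pairwise infinite differences, for
instance the sets of the codes of the initial segments of the sequences in `ℕ → Bool` -/
theorem exists_family : ∃ U : Set (Set ℕ), Cardinal.mk U = Cardinal.continuum ∧
    ∀ A ∈ U, ∀ B ∈ U, A ≠ B → (A \ B).Infinite := by
  have hinj : Function.Injective segs := by
    intro f g h
    by_contra hne
    have := segs_diff hne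
    rw [h] at this
    simp at this
  refine ⟨Set.range segs, ?_, ?_⟩
  · rw [Cardinal.mk_range_eq segs hinj]
    simp
  · rintro _ ⟨f, rfl⟩ _ ⟨g, rfl⟩ h
    exact segs_diff (fun hfg => h (by rw [hfg]))

end Pool.Agent.Lib.MP_bb1fdc_al
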