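import Mathlib

/-!
# Two facts on factorials
-/

namespace Pool.Agent.Lib.MP_bb1fdc_al

open Nat

/-- `M! ≥ m! 2 ^ (M - m)` for `1 ≤ m ≤ M` -/
theorem factorial_mul_two_pow_le {m k : ℕ} (hm : 1 ≤ m) : m ! * 2 ^ k ≤ (m + k)! := by
  induction k with
  | zero => simp
  | succ k ih =>
    have h1 : (m + (k + 1))! = (m + k + 1) * (m + k)! := Nat.factorial_succ (m + k)
    rw [h1, pow_succ]
    calc m ! * (2 ^ k * 2) = 2 * (m ! * 2 ^ k) := by ring
      _ ≤ (m + k + 1) * (m + k)! := Nat.mul_le_mul (by omega) ih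

/-- the factorial beats every exponential -/
theorem exists_pow_lt_factorial (c : ℕ) : ∃ m0, ∀ m, m0 ≤ m → c ^ m < m ! := by
  obtain ⟨n0, h⟩ := Filter.eventually_atTop.1 (Nat.eventually_pow_lt_factorial_sub c 0)
  exact ⟨n0, fun m hm => h m hm⟩

end Pool.Agent.Lib.MP_bb1fdc_al
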