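import Pool.Agent.Lib.MP_bb1fdc_al.TauEv

/-!
# Values of the words yw and xw
-/

namespace Pool.Agent.Lib.MP_bb1fdc_al

private theorem ywEv_cast_ne {N a b : ℕ} (ha : a < N) (hb : b < N) (h : a ≠ b) :
    (a : ZMod N) ≠ (b : ZMod N) := by
  intro he
  have h1 := (ZMod.natCast_eq_natCast_iff' a b N).1 he
  rw [Nat.mod_eq_of_lt ha, Nat.mod_eq_of_lt hb] at h1
  exact h h1

private theorem ywEv_symm (r c x x' : ℕ) : yw r c x x' = yw r c x' x := by
  unfold yw
  rw [min_comm, max_comm]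

private theorem ywEv_lt {x x' : ℕ} (r c : ℕ) (h : x < x') :
    yw r c x x' = cj (c + x * r) (tau r (x' - x - 1)) := by
  unfold yw
  rw [min_eq_left h.le, max_eq_right h.le]

private theorem ywEv_ev (N r' p : ℕ) (w : List (Fin 3)) :
    evC N r' (cj p w) = tt N ^ p * evC N r' w * (tt N ^ p)⁻¹ := ev_cj _ _ _ _

private theorem ywEv_own {N r c x x' M : ℕ} (hc : c < r) (hx' : x' < M) (h : x < x')
    (hM : r * M ≤ N) :
    evC N r (yw r c x x') = Equiv.swap ((c + x * r : ℕ) : ZMod N) ((c + x' * r : ℕ) : ZMod N) := by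
  have hr : 0 < r := by omega
  have h1 : x' - x - 1 + 1 = x' - x := by omega
  have h2 : (x' - x) * r < N := by
    refine lt_of_lt_of_le ?_ hM
    rw [mul_comm]
    exact Nat.mul_lt_mul_of_pos_left (by omega) hr
  rw [ywEv_lt r c h, ywEv_ev, evC_tau_own hr (by rw [h1]; exact h2), conj_swap_nat, h1, zero_add]
  congr 1
  have h3 : (x' - x) * r + (c + x * r) = c + x' * r := by
    have : x' = (x' - x) + x := by omega
    conv_rhs => rw [this]
    ring
  rw [← h3]
  push_cast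
  ring

theorem evC_yw_own {N r c x x' M : ℕ} (hc : c < r) (hx : x < M) (hx' : x' < M) (h : x ≠ x')
    (hM : r * M ≤ N) :
    evC N r (yw r c x x') = Equiv.swap ((c + x * r : ℕ) : ZMod N) ((c + x' * r : ℕ) : ZMod N) := by
  rcases lt_or_gt_of_ne h with h | h
  · exact ywEv_own hc hx' h hM
  · rw [ywEv_symm, ywEv_own hc hx h hM, Equiv.swap_comm]

private theorem ywEv_high {N r' r c x x' M : ℕ} (hc : c < r) (hx' : x' < M) (h : x < x')
    (hM : r * M ≤ r') (h2 : 2 * r' ≤ N) :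
    ∃ p : ℕ, p < r' ∧ evC N r' (yw r c x x') =
      Equiv.swap (p : ZMod N) ((p + r' : ℕ) : ZMod N) := by
  have hr : 0 < r := by omega
  have h3 : (x' - x - 1) * r + (c + x * r) < r' := by
    refine lt_of_lt_of_le ?_ hM
    obtain ⟨d, rfl⟩ : ∃ d, x' = x + d + 1 := ⟨x' - x - 1, by omega⟩
    have e : x + d + 1 - x - 1 = d := by omega
    rw [e]
    have : r * (x + d + 1 + 1) ≤ r * M := Nat.mul_le_mul_left _ (by omega)
    nlinarith
  refine ⟨(x' - x - 1) * r + (c + x * r), h3, ?_⟩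
  rw [ywEv_lt r c h, ywEv_ev, evC_tau_high hr (by omega) h2, conj_swap_nat]
  congr 1
  · push_cast
    ring
  · push_cast
    ring

theorem evC_yw_high {N r' r c x x' M : ℕ} (hc : c < r) (hx : x < M) (hx' : x' < M) (h : x ≠ x')
    (hM : r * M ≤ r') (h2 : 2 * r' ≤ N) :
    ∃ p : ℕ, p < r' ∧ evC N r' (yw r c x x') =
      Equiv.swap (p : ZMod N) ((p + r' : ℕ) : ZMod N) := by
  rcases lt_or_gt_of_ne h with h | h
  · exact ywEv_high hc hx' h hM h2
  · rw [ywEv_symm]
    exact ywEv_high hc hx h hM h2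

theorem evC_yw_low {N r' r : ℕ} (c x x' : ℕ) (h : N ∣ r) :
    evC N r' (yw r c x x') = tt N ^ c * aa N r' * (tt N ^ c)⁻¹ := by
  unfold yw
  rw [ywEv_ev, evC_tau_low _ h, pow_add, tt_pow_eq_one (Dvd.dvd.mul_left h _), mul_one]

/-- the transpositions `(p, p + r')`, `0 ≤ p < r'`, `2 r' ≤ N`, commute -/
theorem swap_comm_high {N r' p q : ℕ} (h : 2 * r' ≤ N) (hp : p < r') (hq : q < r') :
    Equiv.swap (p : ZMod N) ((p + r' : ℕ) : ZMod N) *
        Equiv.swap (q : ZMod N) ((q + r' : ℕ) : ZMod N) =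
      Equiv.swap (q : ZMod N) ((q + r' : ℕ) : ZMod N) *
        Equiv.swap (p : ZMod N) ((p + r' : ℕ) : ZMod N) := by
  rcases eq_or_ne p q with rfl | hpq
  · rfl
  · have h1 : Equiv.swap (q : ZMod N) ((q + r' : ℕ) : ZMod N) ((p : ℕ) : ZMod N) =
        ((p : ℕ) : ZMod N) :=
      Equiv.swap_apply_of_ne_of_ne (ywEv_cast_ne (by omega) (by omega) hpq)
        (ywEv_cast_ne (by omega) (by omega) (by omega))
    have h2 : Equiv.swap (q : ZMod N) ((q + r' : ℕ) : ZMod N) ((p + r' : ℕ) : ZMod N) =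
        ((p + r' : ℕ) : ZMod N) :=
      Equiv.swap_apply_of_ne_of_ne (ywEv_cast_ne (by omega) (by omega) (by omega))
        (ywEv_cast_ne (by omega) (by omega) (by omega))
    have h3 := Equiv.swap_apply_apply (Equiv.swap (q : ZMod N) ((q + r' : ℕ) : ZMod N))
      ((p : ℕ) : ZMod N) ((p + r' : ℕ) : ZMod N)
    rw [h1, h2] at h3
    exact (mul_inv_eq_iff_eq_mul.1 h3.symm).symm

theorem evC_xw_high {N r' r c u v w M : ℕ} (hc : c < r) (hu : u < M) (hv : v < M) (hw : w < M)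
    (h1 : u ≠ v) (h2 : u ≠ w) (hM : r * M ≤ r') (h3 : 2 * r' ≤ N) :
    evC N r' (xw r c u v w) = 1 := by
  obtain ⟨p, hp, e1⟩ := evC_yw_high hc hu hv h1 hM h3
  obtain ⟨q, hq, e2⟩ := evC_yw_high hc hu hw h2 hM h3
  have e : evC N r' (xw r c u v w) = evC N r' (yw r c u v) * evC N r' (yw r c u w) *
      evC N r' (yw r c u v) * evC N r' (yw r c u w) := by
    unfold xw evC
    rw [ev_append, ev_append, ev_append]
  have key : ∀ X Y : Equiv.Perm (ZMod N), X * Y = Y * X → X * X = 1 → Y * Y = 1 →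
      X * Y * X * Y = 1 := by
    intro X Y hXY hX hY
    calc X * Y * X * Y = (X * Y) * (X * Y) := by group
      _ = (Y * X) * (X * Y) := by rw [← hXY]
      _ = Y * (X * X) * Y := by group
      _ = 1 := by rw [hX, mul_one, hY]
  rw [e, e1, e2]
  exact key _ _ (swap_comm_high h3 hp hq) (Equiv.swap_mul_self _ _) (Equiv.swap_mul_self _ _)

theorem evC_xw_low {N r' r : ℕ} (c u v w : ℕ) (h : N ∣ r) : evC N r' (xw r c u v w) = 1 := by
  have e : evC N r' (xw r c u v w) = evC N r' (yw r c u v) * evC N r' (yw r c u w) *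
      evC N r' (yw r c u v) * evC N r' (yw r c u w) := by
    unfold xw evC
    rw [ev_append, ev_append, ev_append]
  have h2 : (tt N ^ c * aa N r' * (tt N ^ c)⁻¹) * (tt N ^ c * aa N r' * (tt N ^ c)⁻¹) = 1 := by
    rw [show (tt N ^ c * aa N r' * (tt N ^ c)⁻¹) * (tt N ^ c * aa N r' * (tt N ^ c)⁻¹) =
      tt N ^ c * (aa N r' * aa N r') * (tt N ^ c)⁻¹ by group, aa_mul_aa]
    group
  rw [e, evC_yw_low c u v h, evC_yw_low c u w h, h2, one_mul, h2]

end Pool.Agent.Lib.MP_bb1fdc_al
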