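import Pool.Agent.Lib.MP_bb1fdc_al.Pattern

/-!
# Lamp blocks
-/

namespace Pool.Agent.Lib.MP_bb1fdc_al

/-- two integers that are close and equal modulo `N` are equal -/
private theorem lamp_eq {N : ℕ} {a b : ℤ} (h : (a : ZMod N) = (b : ZMod N))
    (h1 : b - a < N) (h2 : a - b < N) : a = b := by
  rw [ZMod.intCast_eq_intCast_iff_dvd_sub] at h
  obtain ⟨k, hk⟩ := h
  have hN : (0 : ℤ) ≤ N := Int.natCast_nonneg N
  have hk1 : k < 1 := by
    by_contra hc
    have : (1 : ℤ) ≤ k := not_lt.mp hc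
    nlinarith
  have hk2 : -1 < k := by
    by_contra hc
    have : k ≤ (-1 : ℤ) := not_lt.mp hc
    nlinarith
  have hk0 : k = 0 := by omega
  rw [hk0, mul_zero] at hk
  omega

private theorem lamp_aux {N r m : ℕ} (h1 : 2 * m + 2 ≤ r) (h2 : r + 2 * m + 2 ≤ N)
    (w : List (Fin 3)) (hw : w.length ≤ m) :
    evC N r w = 1 ↔ expo w = 0 ∧ ∀ z ∈ {z : ℤ × Bool | |z.1| ≤ m},
      prodSwap (fun q : ℤ => ((q, false) : ℤ × Bool)) (fun q : ℤ => ((q, true) : ℤ × Bool))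
        (pts 0 w) z = z := by
  have hf : ∀ (q : ℤ) (b : Bool), ((q : ZMod N) + (if b = true then (r : ZMod N) else 0))
      = ((q + (if b = true then (r : ℤ) else 0) : ℤ) : ZMod N) := by
    intro q b
    cases b <;> simp
  refine evC_eq_one_iff (fun q : ℤ => ((q, false) : ℤ × Bool))
    (fun q : ℤ => ((q, true) : ℤ × Bool)) {z : ℤ × Bool | |z.1| ≤ m}
    (fun z => (z.1 : ZMod N) + (if z.2 then (r : ZMod N) else 0)) ?_ ?_ ?_
    ((m : ZMod N) + 1) ?_ (by omega) w hw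
  · rintro ⟨q, b⟩ hq ⟨q', b'⟩ hq' h
    have hq1 : |q| ≤ (m : ℤ) := hq
    have hq2 : |q'| ≤ (m : ℤ) := hq'
    rw [abs_le] at hq1 hq2
    have h0 : ((q : ZMod N) + (if b = true then (r : ZMod N) else 0))
      = ((q' : ZMod N) + (if b' = true then (r : ZMod N) else 0)) := h
    rw [hf, hf] at h0
    have h3 := lamp_eq h0 (by cases b <;> cases b' <;> simp <;> omega)
      (by cases b <;> cases b' <;> simp <;> omega)
    cases b <;> cases b' <;> simp at h3 ⊢ <;> omega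
  · intro q hq
    exact ⟨hq, by simp⟩
  · intro q hq
    exact ⟨hq, by simp⟩
  · rintro ⟨⟨q, b⟩, hq, h⟩
    have hq1 : |q| ≤ (m : ℤ) := hq
    rw [abs_le] at hq1
    have h0 : ((q : ZMod N) + (if b = true then (r : ZMod N) else 0)) = (m : ZMod N) + 1 := h
    have h4 : ((m : ZMod N) + 1) = (((m : ℤ) + 1 : ℤ) : ZMod N) := by push_cast; ring
    rw [h4, hf] at h0
    have h3 := lamp_eq h0 (by cases b <;> simp <;> omega) (by cases b <;> simp <;> omega)
    cases b <;> simp at h3 <;> omega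

/-- lamps: `r` and `N - r` large compared with the length.  Use `evC_eq_one_iff` with
`E = ℤ × Bool`, `D = {(q, b) | |q| ≤ m}`, `f (q, b) = q + (if b then r else 0)`,
`z0 = m + 1`. -/
theorem lamp_iff {N r N' r' m : ℕ} (h1 : 2 * m + 2 ≤ r) (h2 : r + 2 * m + 2 ≤ N)
    (h3 : 2 * m + 2 ≤ r') (h4 : r' + 2 * m + 2 ≤ N') (w : List (Fin 3)) (hw : w.length ≤ m) :
    evC N r w = 1 ↔ evC N' r' w = 1 := by
  rw [lamp_aux h1 h2 w hw, lamp_aux h3 h4 w hw]

end Pool.Agent.Lib.MP_bb1fdc_al
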