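import Pool.Agent.Lib.MP_bb1fdc_al.Pattern

/-!
# Partial blocks
-/

namespace Pool.Agent.Lib.MP_bb1fdc_al

private theorem part_cast {N : ℕ} {x y : ℤ} (h : (x : ZMod N) = (y : ZMod N))
    (hd : |x - y| < N) : x = y := by
  have h1 : ((x - y : ℤ) : ZMod N) = 0 := by
    push_cast
    rw [h, sub_self]
  rw [ZMod.intCast_zmod_eq_zero_iff_dvd] at h1
  have h2 := Int.eq_zero_of_abs_lt_dvd h1 hd
  omega

private theorem part_aux {N r m : ℕ} (h : r + 2 * m + 2 ≤ N) (w : List (Fin 3))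
    (hw : w.length ≤ m) : evC N r w = 1 ↔ expo w = 0 ∧
      ∀ z ∈ Set.Icc (-(m : ℤ)) (m + r), prodSwap (fun q : ℤ => q) (fun q : ℤ => q + r) (pts 0 w) z
        = z := by
  have hN : (r : ℤ) + 2 * m + 2 ≤ N := by exact_mod_cast h
  refine evC_eq_one_iff (fun q : ℤ => q) (fun q : ℤ => q + r) (Set.Icc (-(m : ℤ)) (m + r))
    (fun z : ℤ => (z : ZMod N)) ?_ ?_ ?_ ((m + r + 1 : ℤ) : ZMod N) ?_ (by omega) w hw
  · intro x hx y hy hxy
    rw [Set.mem_Icc] at hx hy
    refine part_cast hxy ?_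
    rw [abs_lt]
    constructor
    · omega
    · omega
  · intro q hq
    rw [abs_le] at hq
    refine ⟨?_, rfl⟩
    rw [Set.mem_Icc]
    omega
  · intro q hq
    rw [abs_le] at hq
    refine ⟨?_, by push_cast; rfl⟩
    rw [Set.mem_Icc]
    omega
  · rintro ⟨x, hx, hxy⟩
    rw [Set.mem_Icc] at hx
    have h3 := part_cast hxy (by
      rw [abs_lt]
      constructor
      · omega
      · omega)
    omega

/-- the same `r`, both `N` large.  Use `evC_eq_one_iff` with `E = ℤ`, `D = [-m, m + r]`, `f` the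
cast, `z0 = m + r + 1`. -/
theorem part_iff {N N' r m : ℕ} (h1 : r + 2 * m + 2 ≤ N) (h2 : r + 2 * m + 2 ≤ N')
    (w : List (Fin 3)) (hw : w.length ≤ m) : evC N r w = 1 ↔ evC N' r w = 1 := by
  rw [part_aux h1 w hw, part_aux h2 w hw]

end Pool.Agent.Lib.MP_bb1fdc_al
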