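import Pool.Agent.Lib.MP_bb1fdc_al.Emb
import Pool.Agent.Lib.MP_bb1fdc_al.KeyFact

/-!
# Upper bounds
-/

namespace Pool.Agent.Lib.MP_bb1fdc_al

open Nat

/-- radius `1`: the balls do not depend on the set (`lamp_iff` with `m = 3`) -/
theorem lefGrowth_one_le (A B : Set ℕ) :
    lefGrowth {tE A, aE A} 1 ≤ lefGrowth {tE B, aE B} 1 := by
  refine lefGrowth_le_lefGrowth (isLEF_Gam B) (aE_mul_aE A) (aE_mul_aE B) 1 fun w hw => ?_
  rw [ev_eq_one_iff, ev_eq_one_iff]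
  refine forall_congr' fun i => ?_
  have h1 := eight_le_r i
  have h2 := two_mul_r_le_md A i
  have h3 := two_mul_r_le_md B i
  exact lamp_iff (m := 3) (by omega) (by omega) (by omega) (by omega) w (by omega)

/-- `r i ≤ 6 n + 2 ≤ 8 n` -/
theorem ub_le (A : Set ℕ) {i n : ℕ} (hn : 1 ≤ n) (h : r i ≤ 6 * n + 2) :
    ub A i n ≤ ((sn A i n)!) ^ r i * 2 ^ (32 * n) := by
  have h1 : 6 * n + 2 ≤ 2 ^ (4 * n) := by
    have h2 : n < 2 ^ n := Nat.lt_two_pow_self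
    calc 6 * n + 2 ≤ 8 * 2 ^ n := by omega
      _ = 2 ^ (n + 3) := by rw [pow_add]; ring
      _ ≤ 2 ^ (4 * n) := Nat.pow_le_pow_right (by norm_num) (by omega)
  have h2 : r i ≤ 2 ^ (4 * n) := h.trans h1
  have h3 : (2 : ℕ) ^ (6 * n + 2) ≤ 2 ^ (8 * n) := Nat.pow_le_pow_right (by norm_num) (by omega)
  unfold ub
  calc r i * (r i * ((sn A i n)!) ^ r i) * ((6 * n + 2) * 2 ^ (6 * n + 2))
      ≤ 2 ^ (4 * n) * (2 ^ (4 * n) * ((sn A i n)!) ^ r i) * (2 ^ (4 * n) * 2 ^ (8 * n)) := by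
        gcongr
    _ = ((sn A i n)!) ^ r i * 2 ^ (20 * n) := by
        have : (2 : ℕ) ^ (20 * n) = 2 ^ (4 * n) * 2 ^ (4 * n) * (2 ^ (4 * n) * 2 ^ (8 * n)) := by
          rw [← pow_add, ← pow_add, ← pow_add]
          congr 1
          ring
        rw [this]
        ring
    _ ≤ ((sn A i n)!) ^ r i * 2 ^ (32 * n) :=
        Nat.mul_le_mul_left _ (Nat.pow_le_pow_right (by norm_num) (by omega))

/-- (`(σ!) ^ r ≤ (σ r)!`, `σ r ≤ 24 n`, `m! 2 ^ k ≤ (m + k)!` for `1 ≤ m`) -/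
theorem lefGrowth_le_factorial (A : Set ℕ) {n : ℕ} (hn : 1 ≤ n) :
    lefGrowth {tE A, aE A} n ≤ (64 * n)! := by
  obtain ⟨i, h1, h2, _⟩ := exists_index hn
  have hr := eight_le_r i
  refine (lefGrowth_le_ub A h1).trans ((ub_le A hn h2).trans ?_)
  have h3 : ((sn A i n)!) ^ r i ≤ (r i * sn A i n)! := by
    have h4 := Nat.prod_factorial_dvd_factorial_sum (Finset.range (r i)) (fun _ => sn A i n)
    simp only [Finset.prod_const, Finset.card_range, Finset.sum_const, smul_eq_mul] at h4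
    exact Nat.le_of_dvd (Nat.factorial_pos _) h4
  have h5 : r i * sn A i n ≤ 24 * n := by
    have h6 : sn A i n ≤ (6 * n + 2) / r i + 2 := min_le_right _ _
    have h7 : r i * ((6 * n + 2) / r i) ≤ 6 * n + 2 := Nat.mul_div_le _ _
    calc r i * sn A i n ≤ r i * ((6 * n + 2) / r i + 2) := Nat.mul_le_mul_left _ h6
      _ = r i * ((6 * n + 2) / r i) + 2 * r i := by ring
      _ ≤ 24 * n := by omega
  have h8 : 1 ≤ r i * sn A i n := Nat.mul_pos (by omega) (sn_pos A i n)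
  calc ((sn A i n)!) ^ r i * 2 ^ (32 * n) ≤ (r i * sn A i n)! * 2 ^ (32 * n) :=
        Nat.mul_le_mul_right _ h3
    _ ≤ (r i * sn A i n + 32 * n)! := factorial_mul_two_pow_le h8
    _ ≤ (64 * n)! := Nat.factorial_le (by omega)

end Pool.Agent.Lib.MP_bb1fdc_al
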