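import Pool.Agent.Lib.MP_bb1fdc_al.Lower
import Pool.Agent.Lib.MP_bb1fdc_al.Upper
import Pool.Agent.Lib.MP_bb1fdc_al.KeyFact

/-!
# The first comparison
-/

namespace Pool.Agent.Lib.MP_bb1fdc_al

open Nat

/-- ceiling division -/
private theorem keyLe_ceil {a d : ℕ} (hd : 0 < d) : ∃ k, a ≤ d * k ∧ d * k ≤ a + d := by
  refine ⟨a / d + 1, ?_, ?_⟩
  · have := Nat.lt_mul_div_succ a hd
    exact this.le
  · have := Nat.mul_div_le a d
    rw [Nat.mul_add, Nat.mul_one]
    omega

/-- Take the index `i` of `exists_index`, `8 n ≥ r i`, `ub A i n ≤ (sn!) ^ (r i) 2 ^ (32 n)`.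
If `i ∉ A` then `sn ≤ 2`, so `ub ≤ 2 ^ (40 n)` and `two_pow_le_lefGrowth` applies.
If `i ∈ A` then `i ∈ B`; let `M = sn + ⌈32 n / r i⌉`, `r i * M ≤ 64 n`, `4 ≤ M`.  If `M ≤ s i` use
`factorial_le_lefGrowth`; otherwise `NN i ≤ 64 n` and `factorial_mul_le_lefGrowth` with
`q = ⌈32 n / NN i⌉`, `NN i * q ≤ 96 n`. -/
theorem key_le {A B : Set ℕ} {i0 : ℕ} (hAB : ∀ i, i0 ≤ i → i ∈ A → i ∈ B) {n : ℕ} (hn : 1 ≤ n)
    (h : r i0 < 6 * n + 2) :
    lefGrowth {tE A, aE A} n ≤ lefGrowth {tE B, aE B} (3072 * n) := by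
  obtain ⟨i, hi1, hi2, hi3⟩ := exists_index hn
  have hii := hi3 i0 h
  have h8 := eight_le_r i
  refine (lefGrowth_le_ub A hi1).trans ((ub_le A hn hi2).trans ?_)
  by_cases hiA : i ∈ A
  · have hiB := hAB i hii hiA
    have hrpos : 0 < r i := by omega
    obtain ⟨k, hk1, hk2⟩ := keyLe_ceil (a := 32 * n) hrpos
    have hk4 : 4 ≤ k := by
      by_contra hlt
      have : r i * k ≤ r i * 3 := Nat.mul_le_mul_left _ (by omega)
      omega
    have hsn : sn A i n ≤ (6 * n + 2) / r i + 2 := min_le_right _ _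
    have hsns : sn A i n ≤ s i := (min_le_left _ _).trans (sg_le_s A i)
    have hsn0 := sn_pos A i n
    have hrsn : r i * sn A i n ≤ 6 * n + 2 + 2 * r i := by
      calc r i * sn A i n ≤ r i * ((6 * n + 2) / r i + 2) := Nat.mul_le_mul_left _ hsn
        _ = r i * ((6 * n + 2) / r i) + 2 * r i := by ring
        _ ≤ 6 * n + 2 + 2 * r i := by
          have := Nat.mul_div_le (6 * n + 2) (r i)
          omega
    have hM : r i * (sn A i n + k) ≤ 64 * n := by
      rw [Nat.mul_add]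
      omega
    by_cases hMs : sn A i n + k ≤ s i
    · refine le_trans ?_ (factorial_le_lefGrowth B (M := sn A i n + k) (R := 3072 * n) hiB
        (by omega) hMs (by omega))
      calc ((sn A i n)!) ^ r i * 2 ^ (32 * n) ≤ ((sn A i n)!) ^ r i * 2 ^ (r i * k) :=
            Nat.mul_le_mul_left _ (Nat.pow_le_pow_right (by norm_num) hk1)
        _ = ((sn A i n)! * 2 ^ k) ^ r i := by
          rw [mul_pow, ← pow_mul, Nat.mul_comm k]
        _ ≤ ((sn A i n + k)!) ^ r i := Nat.pow_le_pow_left (factorial_mul_two_pow_le hsn0) _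
    · have hNN : NN i ≤ 64 * n := by
        have : r i * s i ≤ r i * (sn A i n + k) := Nat.mul_le_mul_left _ (by omega)
        unfold NN
        omega
      have hNNpos : 0 < NN i := Nat.mul_pos hrpos (by unfold s; omega)
      obtain ⟨q, hq1, hq2⟩ := keyLe_ceil (a := 32 * n) hNNpos
      have hq0 : 1 ≤ q := by
        rcases Nat.eq_zero_or_pos q with h0 | h0
        · subst h0
          omega
        · exact h0
      refine le_trans ?_ (factorial_mul_le_lefGrowth B (q := q) (R := 3072 * n) hiB hq0 (by omega))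
      exact Nat.mul_le_mul (Nat.pow_le_pow_left (Nat.factorial_le hsns) _)
        (Nat.pow_le_pow_right (by norm_num) hq1)
  · have hsn : sn A i n ≤ 2 := (min_le_left _ _).trans (sg_of_notMem hiA).le
    refine le_trans ?_ (two_pow_le_lefGrowth B (L := 40 * n) (R := 3072 * n) (by omega))
    calc ((sn A i n)!) ^ r i * 2 ^ (32 * n) ≤ 2 ^ r i * 2 ^ (32 * n) := by
          refine Nat.mul_le_mul_right _ (Nat.pow_le_pow_left ?_ _)
          calc (sn A i n)! ≤ 2 ! := Nat.factorial_le hsn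
            _ = 2 := by decide
      _ = 2 ^ (r i + 32 * n) := by rw [pow_add]
      _ ≤ 2 ^ (40 * n) := Nat.pow_le_pow_right (by norm_num) (by omega)

end Pool.Agent.Lib.MP_bb1fdc_al
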