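import Pool.Agent.Lib.MP_bb1fdc_al.Lower
import Pool.Agent.Lib.MP_bb1fdc_al.Upper
import Pool.Agent.Lib.MP_bb1fdc_al.KeyFact

/-!
# The second comparison
-/

namespace Pool.Agent.Lib.MP_bb1fdc_al

open Nat

/-- Take `i ∈ A \ B` large and `m = 30 * NN i`: `factorial_le_lefGrowth` with `M = s i` for `A`, and
`ub B i (D * m) ≤ 2 ^ (33 * D * m)` since `sn B i _ ≤ 2`. -/
theorem key_lt {A B : Set ℕ} (h : (A \ B).Infinite) (D : ℕ) (hD : 1 ≤ D) :
    ∃ m, 1 ≤ m ∧ lefGrowth {tE B, aE B} (D * m) < lefGrowth {tE A, aE A} m := by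
  obtain ⟨m0, hm0⟩ := exists_pow_lt_factorial (2 ^ (990 * D))
  obtain ⟨i, ⟨hiA, hiB⟩, hi⟩ := h.exists_gt (m0 + 180 * D + 2)
  have h8 := eight_le_r i
  have hir : i ≤ r i := r_strictMono.le_apply
  have hs : s i = i + 6 := rfl
  have hNN : NN i = r i * s i := rfl
  have hrNN : r i ≤ NN i := by
    rw [hNN]
    exact Nat.le_mul_of_pos_right _ (by omega)
  have hDN : NN i ≤ D * NN i := Nat.le_mul_of_pos_left _ (by omega)
  have hr1 : r (i + 1) = r i * (NN i)! := rfl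
  have hidx : 6 * (D * (30 * NN i)) + 2 ≤ r (i + 1) := by
    have h1 : NN i * (180 * D + 1) ≤ (NN i)! := by
      obtain ⟨k, hk⟩ : ∃ k, NN i = k + 2 := ⟨NN i - 2, by omega⟩
      have h2 : 180 * D + 1 ≤ k + 1 := by omega
      calc NN i * (180 * D + 1) ≤ NN i * (k + 1) := Nat.mul_le_mul_left _ h2
        _ ≤ NN i * (k + 1)! := Nat.mul_le_mul_left _ (Nat.self_le_factorial _)
        _ = (NN i)! := by
          rw [hk]
          exact (Nat.factorial_succ (k + 1)).symm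
    have h3 : (NN i)! ≤ r (i + 1) := by
      rw [hr1]
      exact Nat.le_mul_of_pos_left _ (by omega)
    have h4 : 6 * (D * (30 * NN i)) + 2 ≤ NN i * (180 * D + 1) := by
      have : NN i * (180 * D + 1) = 6 * (D * (30 * NN i)) + NN i := by ring
      omega
    exact h4.trans (h1.trans h3)
  refine ⟨30 * NN i, by omega, ?_⟩
  have hn : 1 ≤ D * (30 * NN i) := Nat.mul_pos (by omega) (by omega)
  have hle : D * NN i ≤ D * (30 * NN i) := Nat.mul_le_mul_left _ (by omega)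
  have hri : r i ≤ 6 * (D * (30 * NN i)) + 2 := by omega
  have hsn : sn B i (D * (30 * NN i)) ≤ 2 := (min_le_left _ _).trans (sg_of_notMem hiB).le
  calc lefGrowth {tE B, aE B} (D * (30 * NN i)) ≤ ub B i (D * (30 * NN i)) :=
        lefGrowth_le_ub B hidx
    _ ≤ ((sn B i (D * (30 * NN i)))!) ^ r i * 2 ^ (32 * (D * (30 * NN i))) := ub_le B hn hri
    _ ≤ 2 ^ r i * 2 ^ (32 * (D * (30 * NN i))) := by
      refine Nat.mul_le_mul_right _ (Nat.pow_le_pow_left ?_ _)
      calc (sn B i (D * (30 * NN i)))! ≤ 2 ! := Nat.factorial_le hsn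
        _ = 2 := by decide
    _ = 2 ^ (r i + 32 * (D * (30 * NN i))) := by rw [pow_add]
    _ ≤ 2 ^ (33 * (D * (30 * NN i))) := Nat.pow_le_pow_right (by norm_num) (by omega)
    _ = ((2 ^ (990 * D)) ^ s i) ^ r i := by
      rw [← pow_mul, ← pow_mul, hNN]
      congr 1
      ring
    _ < ((s i)!) ^ r i := Nat.pow_lt_pow_left (hm0 (s i) (by omega)) (by omega)
    _ ≤ lefGrowth {tE A, aE A} (30 * NN i) :=
      factorial_le_lefGrowth A hiA (by omega) le_rfl (by rw [hNN])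

end Pool.Agent.Lib.MP_bb1fdc_al
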