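import Pool.Agent.Lib.MP_bb1fdc_al.ZwEv
import Pool.Agent.Lib.MP_bb1fdc_al.Gam

/-!
# Lamp elements
-/

namespace Pool.Agent.Lib.MP_bb1fdc_al

/-- the lamp elements -/
noncomputable def bE (A : Set ℕ) (L : ℕ) (f : Fin L → Bool) : Gam A :=
  ev (tE A) (aE A) (lampW (List.ofFn f))

/-- the lamp elements times their translates -/
noncomputable def zE (A : Set ℕ) (L : ℕ) (f : Fin L → Bool) : Gam A :=
  ev (tE A) (aE A) (zw (List.ofFn f))

private lemma lampE_ne {N r' x : ℕ} (h0 : 0 < r') (h1 : r' < N) :
    ((x + r' : ℕ) : ZMod N) ≠ (x : ZMod N) := by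
  intro h
  rw [ZMod.natCast_eq_natCast_iff] at h
  have h2 : r' ≡ 0 [MOD N] := by
    have : x + r' ≡ x + 0 [MOD N] := by simpa using h
    exact Nat.ModEq.add_left_cancel' x this
  rw [Nat.modEq_zero_iff_dvd] at h2
  exact absurd (Nat.le_of_dvd h0 h2) (by omega)

private lemma lampE_ite {N r' x : ℕ} (h0 : 0 < r') (h1 : r' < N) {a b : Bool}
    (h : (if a = true then ((x + r' : ℕ) : ZMod N) else (x : ZMod N)) =
      (if b = true then ((x + r' : ℕ) : ZMod N) else (x : ZMod N))) : a = b := by
  cases a <;> cases b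
  · rfl
  · simp only [Bool.false_eq_true, if_false, if_true] at h
    exact absurd h.symm (lampE_ne h0 h1)
  · simp only [Bool.false_eq_true, if_false, if_true] at h
    exact absurd h (lampE_ne h0 h1)
  · rfl

private lemma lampE_getD {L : ℕ} (f : Fin L → Bool) (x : Fin L) :
    (List.ofFn f).getD x false = f x := by
  rw [List.getD_eq_getElem?_getD, List.getElem?_ofFn]
  simp

/-- (look at a block `k` with `2 L ≤ r k`) -/
theorem bE_injective (A : Set ℕ) (L : ℕ) : Function.Injective (bE A L) := by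
  intro f f' h
  obtain ⟨k, -, hk⟩ := exists_le_r (2 * L) 0
  have hr := eight_le_r k
  have hmd := two_mul_r_le_md A k
  have h2 := congrArg (fun g : Gam A => (g : Amb A) k) h
  simp only [bE] at h2
  rw [ev_coord, ev_coord] at h2
  funext x
  have hx : (x : ℕ) < L := x.2
  have h3 := congrArg (fun g : Equiv.Perm (ZMod (md A k)) => g ((x : ℕ) : ZMod (md A k))) h2
  beta_reduce at h3
  rw [evC_lampW (List.ofFn f) (by rw [List.length_ofFn]; omega)
      (by rw [List.length_ofFn]; omega) x (by omega),
    evC_lampW (List.ofFn f') (by rw [List.length_ofFn]; omega)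
      (by rw [List.length_ofFn]; omega) x (by omega)] at h3
  rw [List.length_ofFn, List.length_ofFn, lampE_getD, lampE_getD] at h3
  have hn : ¬ (r k ≤ (x : ℕ)) := by omega
  simp only [hx, true_and, hn, false_and, if_false] at h3
  exact lampE_ite (by omega) (by omega) h3

theorem zE_injective (A : Set ℕ) (L : ℕ) : Function.Injective (zE A L) := by
  intro f f' h
  obtain ⟨k, -, hk⟩ := exists_le_r (2 * L) 0
  have hr := eight_le_r k
  have hmd := two_mul_r_le_md A k
  have h2 := congrArg (fun g : Gam A => (g : Amb A) k) h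
  simp only [zE] at h2
  rw [ev_coord, ev_coord] at h2
  funext x
  have hx : (x : ℕ) < L := x.2
  have h3 := congrArg (fun g : Equiv.Perm (ZMod (md A k)) => g ((x : ℕ) : ZMod (md A k))) h2
  beta_reduce at h3
  rw [evC_zw_apply (List.ofFn f) (by rw [List.length_ofFn]; omega) hmd x
      (by rw [List.length_ofFn]; omega),
    evC_zw_apply (List.ofFn f') (by rw [List.length_ofFn]; omega) hmd x
      (by rw [List.length_ofFn]; omega), lampE_getD, lampE_getD] at h3
  exact lampE_ite (by omega) (by omega) h3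

theorem bE_mem_ball (A : Set ℕ) (L : ℕ) (f : Fin L → Bool) :
    bE A L f ∈ ball {tE A, aE A} (3 * L) := by
  refine ev_mem_ball _ _ ?_
  have := length_lampW_le (List.ofFn f)
  rwa [List.length_ofFn] at this

theorem zE_mem_ball (A : Set ℕ) (L : ℕ) (f : Fin L → Bool) :
    zE A L f ∈ ball {tE A, aE A} (8 * L) := by
  refine ev_mem_ball _ _ ?_
  have := length_zw_le (List.ofFn f)
  rwa [List.length_ofFn] at this

theorem zE_coord (A : Set ℕ) {L : ℕ} (f : Fin L → Bool) {i : ℕ} (h : md A i ∣ L) :
    (zE A L f : Amb A) i = 1 := by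
  unfold zE
  rw [ev_coord]
  exact evC_zw_of_dvd _ (by rwa [List.length_ofFn])

end Pool.Agent.Lib.MP_bb1fdc_al
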