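import Pool.Agent.Lib.MP_bb1fdc_al.Cyc

/-!
# Lamp words
-/

namespace Pool.Agent.Lib.MP_bb1fdc_al

/-- the product of the `t ^ p a t ^ (-p)` over the `p` with bit `true` -/
def lampW : List Bool → List (Fin 3)
  | [] => []
  | b :: e => (if b then [2] else []) ++ [0] ++ lampW e ++ [1]

theorem length_lampW_le (e : List Bool) : (lampW e).length ≤ 3 * e.length := by
  induction e with
  | nil => simp [lampW]
  | cons b e ih =>
    simp only [lampW, List.length_append, List.length_cons, List.length_nil]
    cases b
    · simp only [Bool.false_eq_true, if_false, List.length_nil]; omega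
    · simp only [if_true, List.length_cons, List.length_nil]; omega

private theorem Lamps_cast {N a b : ℕ} (ha : a < N) (hb : b < N) :
    ((a : ZMod N) = (b : ZMod N)) ↔ a = b := by
  rw [ZMod.natCast_eq_natCast_iff', Nat.mod_eq_of_lt ha, Nat.mod_eq_of_lt hb]

private theorem Lamps_bit {N r' : ℕ} (b : Bool) (y : ℕ) (hr : r' < N) (hy : y < N) :
    evC N r' (if b then [2] else []) (y : ZMod N) =
      if b = true ∧ y = 0 then (r' : ZMod N) else if b = true ∧ y = r' then 0 else (y : ZMod N) := by
  have h0 : 0 < N := by omega
  cases b
  · simp [evC, ev_nil]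
  · simp only [if_true, true_and, evC, ev_a, aa]
    by_cases h1 : y = 0
    · subst h1
      simp
    · rw [if_neg h1]
      have h2 : (y : ZMod N) ≠ 0 := by
        have := (Lamps_cast (N := N) hy h0).not.2 h1
        simpa using this
      by_cases h3 : y = r'
      · subst h3
        simp
      · rw [if_neg h3]
        have h4 : (y : ZMod N) ≠ (r' : ZMod N) := (Lamps_cast (N := N) hy hr).not.2 h3
        exact Equiv.swap_apply_of_ne_of_ne h2 h4

private theorem Lamps_cons {N r' : ℕ} (b : Bool) (e : List Bool) (x : ZMod N) :
    evC N r' (lampW (b :: e)) x =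
      evC N r' (if b then [2] else []) (evC N r' (lampW e) (x - 1) + 1) := by
  have h0 : ∀ z : ZMod N, evC N r' [0] z = z + 1 := by
    intro z
    simp [evC, ev, letter, tt]
  have h1 : ∀ z : ZMod N, evC N r' [1] z = z - 1 := by
    intro z
    simp [evC, ev, letter, tt, sub_eq_add_neg]
  have happ : ∀ (w w' : List (Fin 3)) (z : ZMod N), evC N r' (w ++ w') z =
      evC N r' w (evC N r' w' z) := by
    intro w w' z
    simp only [evC, ev_append, Equiv.Perm.mul_apply]
  simp only [lampW, happ, h0, h1]

/-- the action of a lamp word on a point `x < N` (induction on `e`; for `x = 0` the tail is applied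
to `N - 1`, which it fixes) -/
theorem evC_lampW {N r' : ℕ} (e : List Bool) (h1 : e.length ≤ r') (h2 : r' + e.length ≤ N)
    (x : ℕ) (hx : x < N) :
    evC N r' (lampW e) (x : ZMod N) =
      if x < e.length ∧ e.getD x false = true then ((x + r' : ℕ) : ZMod N)
      else if r' ≤ x ∧ x - r' < e.length ∧ e.getD (x - r') false = true then
        ((x - r' : ℕ) : ZMod N)
      else (x : ZMod N) := by
  induction e generalizing x with
  | nil => simp [lampW, evC, ev_nil]
  | cons b e ih =>
    rw [List.length_cons] at h1 h2 ⊢
    have ih' := ih (by omega) (by omega)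
    have hN : 0 < N := by omega
    rw [Lamps_cons]
    cases x with
    | zero =>
      have e1 : ((0 : ℕ) : ZMod N) - 1 = ((N - 1 : ℕ) : ZMod N) := by
        rw [Nat.cast_sub (by omega)]
        simp
      have e0 : evC N r' (lampW e) ((N - 1 : ℕ) : ZMod N) = ((N - 1 : ℕ) : ZMod N) := by
        rw [ih' (N - 1) (by omega), if_neg (by omega), if_neg (by omega)]
      rw [e1, e0, ← e1]
      have e2 : ((0 : ℕ) : ZMod N) - 1 + 1 = ((0 : ℕ) : ZMod N) := by ring
      rw [e2, Lamps_bit b 0 (by omega) hN]
      cases b
      · simp
      · simp
    | succ y =>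
      have e1 : ((y + 1 : ℕ) : ZMod N) - 1 = (y : ZMod N) := by push_cast; ring
      rw [e1, ih' y (by omega)]
      have e3 : (b :: e).getD (y + 1) false = e.getD y false := rfl
      by_cases c1 : y < e.length ∧ e.getD y false = true
      · rw [if_pos c1]
        have e2 : ((y + r' : ℕ) : ZMod N) + 1 = ((y + 1 + r' : ℕ) : ZMod N) := by push_cast; ring
        rw [e2, Lamps_bit b _ (by omega) (by omega), if_neg (by omega), if_neg (by omega),
          if_pos ⟨by omega, by rw [e3]; exact c1.2⟩]
      · rw [if_neg c1]
        by_cases c2 : r' ≤ y ∧ y - r' < e.length ∧ e.getD (y - r') false = true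
        · rw [if_pos c2]
          have e2 : ((y - r' : ℕ) : ZMod N) + 1 = ((y + 1 - r' : ℕ) : ZMod N) := by
            rw [show y + 1 - r' = y - r' + 1 by omega]
            push_cast; ring
          have e4 : (b :: e).getD (y + 1 - r') false = e.getD (y - r') false := by
            rw [show y + 1 - r' = y - r' + 1 by omega]
            rfl
          rw [e2, Lamps_bit b _ (by omega) (by omega), if_neg (by omega), if_neg (by omega),
            if_neg (by omega), if_pos ⟨by omega, by omega, by rw [e4]; exact c2.2.2⟩]
        · rw [if_neg c2]
          have e2 : (y : ZMod N) + 1 = ((y + 1 : ℕ) : ZMod N) := by push_cast; ring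
          rw [e2, Lamps_bit b _ (by omega) hx, if_neg (by omega)]
          have c3 : ¬ (y + 1 < e.length + 1 ∧ (b :: e).getD (y + 1) false = true) := by
            rw [e3]
            intro hc
            exact c1 ⟨by omega, hc.2⟩
          rw [if_neg c3]
          by_cases c4 : y + 1 = r'
          · have e5 : y + 1 - r' = 0 := by omega
            rw [e5]
            have e6 : (b :: e).getD 0 false = b := rfl
            rw [e6]
            cases b
            · simp
            · rw [if_pos ⟨rfl, c4⟩, if_pos ⟨by omega, by omega, rfl⟩]
              simp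
          · rw [if_neg (fun hc => c4 hc.2), if_neg]
            rintro ⟨h3, h4, h5⟩
            have e4 : (b :: e).getD (y + 1 - r') false = e.getD (y - r') false := by
              rw [show y + 1 - r' = y - r' + 1 by omega]
              rfl
            rw [e4] at h5
            exact c2 ⟨by omega, by omega, h5⟩

end Pool.Agent.Lib.MP_bb1fdc_al
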