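import Pool.Agent.Lib.MP_bb1fdc_al.Pure

/-!
# Relations between the elements with support in one block
-/

namespace Pool.Agent.Lib.MP_bb1fdc_al

private theorem PureRel_pos {A : Set ℕ} {i M : ℕ} (hi : i ∈ A) (hM : M ≤ s i) (c c' : Fin (r i))
    (x x' u : Fin M) :
    Equiv.swap (pos A i M c x) (pos A i M c x') (pos A i M c' u) =
      pos A i M c' ((Pi.mulSingle c (Equiv.swap x x') : Fin (r i) → Equiv.Perm (Fin M)) c' u) := by
  by_cases h : c' = c
  · subst h
    rw [Pi.mulSingle_eq_same]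
    have hinj : Function.Injective (pos A i M c') := fun a b hab => (pos_inj hi hM hab).2
    exact (hinj.map_swap x x' u).symm
  · rw [Pi.mulSingle_eq_of_ne h, Equiv.Perm.one_apply]
    exact Equiv.swap_apply_of_ne_of_ne (fun e => h (pos_inj hi hM e).1)
      (fun e => h (pos_inj hi hM e).1)

/-- conjugation of a three-cycle by a transposition -/
theorem yE_mul_xE {A : Set ℕ} {i M : ℕ} (hi : i ∈ A) (hM : M ≤ s i) (c c' : Fin (r i))
    (x x' u v w : Fin M) (h : x ≠ x') (h1 : u ≠ v) (h2 : u ≠ w) :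
    yE A i c x x' * xE A i c' u v w =
      xE A i c' ((Pi.mulSingle c (Equiv.swap x x') : Fin (r i) → Equiv.Perm (Fin M)) c' u)
        ((Pi.mulSingle c (Equiv.swap x x') : Fin (r i) → Equiv.Perm (Fin M)) c' v)
        ((Pi.mulSingle c (Equiv.swap x x') : Fin (r i) → Equiv.Perm (Fin M)) c' w) *
      yE A i c x x' := by
  set g : Equiv.Perm (Fin M) :=
    (Pi.mulSingle c (Equiv.swap x x') : Fin (r i) → Equiv.Perm (Fin M)) c' with hg
  have h1' : g u ≠ g v := fun e => h1 (g.injective e)
  have h2' : g u ≠ g w := fun e => h2 (g.injective e)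
  apply Subtype.ext
  funext k
  rw [Subgroup.coe_mul, Subgroup.coe_mul, Pi.mul_apply, Pi.mul_apply]
  by_cases hk : k = i
  · subst hk
    rw [yE_self hi hM c x x' h, xE_self hi hM c' u v w h1 h2,
      xE_self hi hM c' (g u) (g v) (g w) h1' h2', mul_com3, PureRel_pos hi hM, PureRel_pos hi hM,
      PureRel_pos hi hM]
  · rw [xE_of_ne hM c' u v w h1 h2 hk, xE_of_ne hM c' (g u) (g v) (g w) h1' h2' hk, mul_one,
      one_mul]

/-- an element that is trivial in block `i` commutes with the three-cycles of block `i` -/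
theorem comm_xE {A : Set ℕ} {i M : ℕ} (hM : M ≤ s i) (c : Fin (r i)) (u v w : Fin M)
    (h1 : u ≠ v) (h2 : u ≠ w) (z : Gam A) (hz : (z : Amb A) i = 1) :
    z * xE A i c u v w = xE A i c u v w * z := by
  apply Subtype.ext
  funext k
  rw [Subgroup.coe_mul, Subgroup.coe_mul, Pi.mul_apply, Pi.mul_apply]
  by_cases hk : k = i
  · subst hk
    rw [hz, mul_one, one_mul]
  · rw [xE_of_ne hM c u v w h1 h2 hk, mul_one, one_mul]

end Pool.Agent.Lib.MP_bb1fdc_al
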