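import Pool.Agent.Lib.MP_bb1fdc_al.KeyLt

/-!
# Infinite differences
-/

namespace Pool.Agent.Lib.MP_bb1fdc_al

open Nat

/-- (`exists_lefGrowth_le` on both sides and `key_lt`) -/
theorem not_prec_of_infinite {A B : Set ℕ} (h : (A \ B).Infinite) {T : Set (Gam A)}
    {T' : Set (Gam B)} (hT : FinGen T) (hT' : FinGen T') :
    ¬ Prec (lefGrowth T) (lefGrowth T') := by
  rintro ⟨C, hC, hCx⟩
  obtain ⟨C1, hC1, h1⟩ := exists_lefGrowth_le (isLEF_Gam A) (finGen_gen A) hT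
  obtain ⟨C2, hC2, h2⟩ := exists_lefGrowth_le (isLEF_Gam B) hT' (finGen_gen B)
  have hD0 : 1 ≤ ⌈C * C1⌉₊ := by
    refine Nat.succ_le_of_lt (Nat.ceil_pos.2 ?_)
    have : (0 : ℝ) < (C1 : ℝ) := by exact_mod_cast hC1
    positivity
  obtain ⟨m, hm, hlt⟩ := key_lt h (C2 * ⌈C * C1⌉₊) (Nat.mul_pos hC2 hD0)
  have hm0 : (0 : ℝ) < (m : ℝ) := by exact_mod_cast hm
  have hC10 : (0 : ℝ) < (C1 : ℝ) := by exact_mod_cast hC1
  have h3 := hCx ((C1 * m : ℕ) : ℝ) (by push_cast; positivity)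
  rw [Nat.ceil_natCast] at h3
  have h4 : ⌈C * ((C1 * m : ℕ) : ℝ)⌉₊ ≤ ⌈C * C1⌉₊ * m := by
    apply Nat.ceil_le.2
    push_cast
    calc C * (C1 * m) = (C * C1) * m := by ring
      _ ≤ (⌈C * C1⌉₊ : ℝ) * m := mul_le_mul_of_nonneg_right (Nat.le_ceil _) hm0.le
  have h5 : C2 * ⌈C * ((C1 * m : ℕ) : ℝ)⌉₊ ≤ C2 * ⌈C * C1⌉₊ * m := by
    calc C2 * ⌈C * ((C1 * m : ℕ) : ℝ)⌉₊ ≤ C2 * (⌈C * C1⌉₊ * m) := Nat.mul_le_mul_left _ h4
      _ = _ := by ring
  have h6 := (h1 m).trans (h3.trans ((h2 _).trans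
    (lefGrowth_mono (isLEF_Gam B) (finGen_gen B).1 h5)))
  exact absurd hlt (not_lt.mpr h6)

/-- (transport the generating set along an isomorphism with `lefGrowth_equiv`) -/
theorem not_iso {A B : Set ℕ} (h : (A \ B).Infinite) : IsEmpty (Gam A ≃* Gam B) := by
  refine ⟨fun e => ?_⟩
  have hT := finGen_gen A
  have hT' : FinGen (e '' {tE A, aE A}) := by
    refine ⟨hT.1.image e, ?_⟩
    have h1 := MonoidHom.map_closure (e : Gam A →* Gam B) {tE A, aE A}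
    rw [hT.2] at h1
    have h2 : (⊤ : Subgroup (Gam A)).map (e : Gam A →* Gam B) = ⊤ := by
      rw [← MonoidHom.range_eq_map]
      exact MonoidHom.range_eq_top.mpr e.surjective
    rw [h2] at h1
    exact h1.symm
  refine not_prec_of_infinite h hT hT' ⟨1, one_pos, fun x _ => ?_⟩
  rw [lefGrowth_equiv, one_mul]

end Pool.Agent.Lib.MP_bb1fdc_al
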