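import Pool.Agent.Lib.MP_bb1fdc_al.Ord1
import Pool.Agent.Lib.MP_bb1fdc_al.Ord2
import Pool.Agent.Lib.MP_bb1fdc_al.Fam

/-!
# The final statement
-/

namespace Pool.Agent.Lib.MP_bb1fdc_al

open Nat

private theorem main_mono {A : Set ℕ} {S : Set (Gam A)} (hS : FinGen S) {m n : ℕ} (h : m ≤ n) :
    lefGrowth S m ≤ lefGrowth S n :=
  lefGrowth_mono (isLEF_Gam A) hS.1 h

/-- the comparison on the natural numbers, for all finite generating sets -/
theorem main_nat_iff {A B : Set ℕ} {S : Set (Gam A)} {T : Set (Gam B)} (hS : FinGen S)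
    (hT : FinGen T) :
    (∃ C : ℕ, ∀ n, 1 ≤ n → lefGrowth S n ≤ lefGrowth T (C * n)) ↔ (A \ B).Finite := by
  constructor
  · rintro ⟨C, hC⟩
    by_contra hinf
    obtain ⟨C1, hC1, h1⟩ := exists_lefGrowth_le (isLEF_Gam A) (finGen_gen A) hS
    obtain ⟨C2, hC2, h2⟩ := exists_lefGrowth_le (isLEF_Gam B) hT (finGen_gen B)
    obtain ⟨m, hm1, hm⟩ := key_lt (A := A) (B := B) hinf (C2 * (C * C1) + 1) (by omega)
    have h3 : lefGrowth {tE A, aE A} m ≤ lefGrowth {tE B, aE B} ((C2 * (C * C1) + 1) * m) :=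
      calc lefGrowth {tE A, aE A} m ≤ lefGrowth S (C1 * m) := h1 m
        _ ≤ lefGrowth T (C * (C1 * m)) := hC _ (Nat.mul_pos (by omega) (by omega))
        _ ≤ lefGrowth {tE B, aE B} (C2 * (C * (C1 * m))) := h2 _
        _ ≤ lefGrowth {tE B, aE B} ((C2 * (C * C1) + 1) * m) :=
          main_mono (finGen_gen B) (by
            have : (C2 * (C * C1) + 1) * m = C2 * (C * (C1 * m)) + m := by ring
            omega)
    omega
  · intro hfin
    obtain ⟨C, hC0, hC⟩ := prec_of_finite hfin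
    obtain ⟨C1, hC1, h1⟩ := exists_lefGrowth_le (isLEF_Gam A) hS (finGen_gen A)
    obtain ⟨C2, hC2, h2⟩ := exists_lefGrowth_le (isLEF_Gam B) (finGen_gen B) hT
    refine ⟨C2 * (⌈C⌉₊ * C1), fun n hn => ?_⟩
    have hpos : (0 : ℝ) < ((C1 * n : ℕ) : ℝ) := by
      exact_mod_cast Nat.mul_pos (by omega) (by omega)
    have h3 := hC _ hpos
    rw [Nat.ceil_natCast] at h3
    calc lefGrowth S n ≤ lefGrowth {tE A, aE A} (C1 * n) := h1 n
      _ ≤ lefGrowth {tE B, aE B} ⌈C * ((C1 * n : ℕ) : ℝ)⌉₊ := h3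
      _ ≤ lefGrowth {tE B, aE B} (⌈C⌉₊ * (C1 * n)) := by
        refine main_mono (finGen_gen B) (Nat.ceil_le.2 ?_)
        push_cast
        have h4 : C ≤ (⌈C⌉₊ : ℝ) := Nat.le_ceil C
        have h5 : (0 : ℝ) ≤ (C1 : ℝ) * (n : ℝ) := by positivity
        exact mul_le_mul_of_nonneg_right h4 h5
      _ ≤ lefGrowth T (C2 * (⌈C⌉₊ * (C1 * n))) := h2 _
      _ = lefGrowth T (C2 * (⌈C⌉₊ * C1) * n) := by
        congr 1
        ring

/-- the real relation forces finiteness, for all finite generating sets -/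
theorem main_prec {A B : Set ℕ} {S : Set (Gam A)} {T : Set (Gam B)} (hS : FinGen S)
    (hT : FinGen T) (h : Prec (lefGrowth S) (lefGrowth T)) : (A \ B).Finite := by
  by_contra hinf
  exact not_prec_of_infinite hinf hS hT h

/-- The final statement. -/
theorem main :
    ∃ (Γ : Set ℕ → Type) (_ : ∀ A, Group (Γ A)) (t a : ∀ A, Γ A),
      (∀ A, FinGen {t A, a A} ∧ IsResFin (Γ A) ∧ IsLEF (Γ A)) ∧
      (∀ A n, 2 ^ n ≤ lefGrowth {t A, a A} (3 * n) ∧
        (1 ≤ n → lefGrowth {t A, a A} n ≤ (64 * n)!)) ∧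
      (∀ A B, Prec (lefGrowth {t A, a A}) (lefGrowth {t B, a B}) ↔ (A \ B).Finite) ∧
      (∀ (A B : Set ℕ) (S : Set (Γ A)) (T : Set (Γ B)), FinGen S → FinGen T →
        (Prec (lefGrowth S) (lefGrowth T) → (A \ B).Finite) ∧
        ((∃ C : ℕ, ∀ n, 1 ≤ n → lefGrowth S n ≤ lefGrowth T (C * n)) ↔ (A \ B).Finite)) ∧
      (∃ U : Set (Set ℕ), Cardinal.mk U = Cardinal.continuum ∧
        ∀ A ∈ U, ∀ B ∈ U, A ≠ B → (A \ B).Infinite ∧ IsEmpty (Γ A ≃* Γ B)) := by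
  refine ⟨fun A => Gam A, fun A => inferInstance, tE, aE, fun A => ⟨finGen_gen A, isResFin_Gam A,
    isLEF_Gam A⟩, fun A n => ⟨two_pow_le_lefGrowth A le_rfl, lefGrowth_le_factorial A⟩, ?_, ?_, ?_⟩
  · exact fun A B => ⟨main_prec (finGen_gen A) (finGen_gen B), prec_of_finite⟩
  · exact fun A B S T hS hT => ⟨main_prec hS hT, main_nat_iff hS hT⟩
  · obtain ⟨U, hU, hU2⟩ := exists_family
    exact ⟨U, hU, fun A hA B hB hAB => ⟨hU2 A hA B hB hAB, not_iso (hU2 A hA B hB hAB)⟩⟩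

end Pool.Agent.Lib.MP_bb1fdc_al
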