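import Pool.Agent.Lib.MP_bb1fdc_al.Cyc

/-!
# Normal form of a word
-/

namespace Pool.Agent.Lib.MP_bb1fdc_al

/-- exponent sum of `t` in a word -/
def expo (w : List (Fin 3)) : ℤ := (w.map ![1, -1, 0]).sum

/-- the values `q` of the exponent sum at the letters `a` of the word, starting with `p` -/
def pts : ℤ → List (Fin 3) → List ℤ
  | _, [] => []
  | p, l :: w => if l = 0 then pts (p + 1) w else if l = 1 then pts (p - 1) w else p :: pts p w

theorem abs_expo_le (w : List (Fin 3)) : |expo w| ≤ w.length := by
  induction w with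
  | nil => simp [expo]
  | cons x w ih =>
    have h1 : expo (x :: w) = (![1, -1, 0] : Fin 3 → ℤ) x + expo w := by
      simp [expo]
    have h2 : |(![1, -1, 0] : Fin 3 → ℤ) x| ≤ 1 := by
      fin_cases x <;> simp
    rw [h1, List.length_cons]
    push_cast
    refine (abs_add_le _ _).trans ?_
    linarith

private lemma norm_pts (w : List (Fin 3)) (p q : ℤ) (h : q ∈ pts p w) :
    |q - p| ≤ w.length := by
  induction w generalizing p with
  | nil => simp [pts] at h
  | cons x w ih =>
    rw [List.length_cons]
    push_cast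
    rw [pts] at h
    split_ifs at h with h0 h1
    · have h2 := abs_le.1 (ih (p + 1) h)
      exact abs_le.2 ⟨by linarith [h2.1], by linarith [h2.2]⟩
    · have h2 := abs_le.1 (ih (p - 1) h)
      exact abs_le.2 ⟨by linarith [h2.1], by linarith [h2.2]⟩
    · rcases List.mem_cons.1 h with h3 | h3
      · subst h3
        rw [sub_self, abs_zero]
        positivity
      · exact (ih p h3).trans (by linarith)

theorem abs_le_of_mem_pts (w : List (Fin 3)) (q : ℤ) (h : q ∈ pts 0 w) : |q| ≤ w.length := by
  have h1 := norm_pts w 0 q h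
  rwa [sub_zero] at h1

/-- the product of the transpositions `(α q, β q)`, `q` in the list -/
def prodSwap {E : Type} [DecidableEq E] (α β : ℤ → E) (l : List ℤ) : Equiv.Perm E :=
  (l.map fun q => Equiv.swap (α q) (β q)).prod

private lemma norm_gen (N r : ℕ) (w : List (Fin 3)) (p : ℤ) :
    tt N ^ p * evC N r w = prodSwap (fun q : ℤ => (q : ZMod N))
      (fun q : ℤ => (q : ZMod N) + (r : ZMod N)) (pts p w) * tt N ^ (p + expo w) := by
  induction w generalizing p with
  | nil => simp [evC, ev, pts, prodSwap, expo]
  | cons x w ih =>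
    have h1 : expo (x :: w) = (![1, -1, 0] : Fin 3 → ℤ) x + expo w := by
      simp [expo]
    have h2 : evC N r (x :: w) = letter (tt N) (aa N r) x * evC N r w := by
      simp [evC, ev]
    rw [h1, h2, pts]
    split_ifs with h3 h4
    · subst h3
      have h5 : letter (tt N) (aa N r) 0 = tt N := rfl
      have h6 : (![1, -1, 0] : Fin 3 → ℤ) 0 = 1 := rfl
      rw [h5, h6, ← mul_assoc, ← zpow_add_one, ih, add_assoc]
    · subst h4
      have h5 : letter (tt N) (aa N r) 1 = (tt N)⁻¹ := rfl
      have h6 : (![1, -1, 0] : Fin 3 → ℤ) 1 = -1 := rfl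
      rw [h5, h6, ← mul_assoc, ← zpow_sub_one, ih, sub_eq_add_neg, add_assoc]
    · have h7 : x = 2 := by
        fin_cases x
        · exact absurd rfl h3
        · exact absurd rfl h4
        · rfl
      subst h7
      have h5 : letter (tt N) (aa N r) 2 = aa N r := rfl
      have h6 : (![1, -1, 0] : Fin 3 → ℤ) 2 = 0 := rfl
      have h8 : tt N ^ p * aa N r = Equiv.swap (p : ZMod N) ((p : ZMod N) + (r : ZMod N)) *
          tt N ^ p := by
        have h9 := conj_swap N p 0 (r : ZMod N)
        rw [zero_add, add_comm (r : ZMod N)] at h9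
        rw [← h9, aa]
        group
      have h10 : prodSwap (fun q : ℤ => (q : ZMod N)) (fun q : ℤ => (q : ZMod N) + (r : ZMod N))
          (p :: pts p w) = Equiv.swap (p : ZMod N) ((p : ZMod N) + (r : ZMod N)) *
            prodSwap (fun q : ℤ => (q : ZMod N)) (fun q : ℤ => (q : ZMod N) + (r : ZMod N))
              (pts p w) := by
        simp [prodSwap]
      rw [h5, h6, zero_add, ← mul_assoc, h8, mul_assoc, ih, h10, mul_assoc]

/-- normal form: a word is a product of conjugates of `a` times a power of `t`
(prove `t ^ p * w = ... * t ^ (p + expo w)` with `pts p w` by induction) -/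
theorem evC_eq (N r : ℕ) (w : List (Fin 3)) :
    evC N r w = prodSwap (fun q : ℤ => (q : ZMod N)) (fun q : ℤ => (q : ZMod N) + (r : ZMod N))
      (pts 0 w) * tt N ^ expo w := by
  have h1 := norm_gen N r w 0
  rwa [zpow_zero, one_mul, zero_add] at h1

end Pool.Agent.Lib.MP_bb1fdc_al
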