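import Pool.Agent.Lib.MP_bb1fdc_al.KeyLe

/-!
# Finite differences
-/

namespace Pool.Agent.Lib.MP_bb1fdc_al

open Nat

/-- (`lefGrowth_one_le` for `0 < x ≤ 1`; for `x > 1` and `n = ⌈x⌉` large `key_le`; for the finitely
many remaining `n` the constant `C` is chosen so large that the right side, which is at least
`2 ^ L` at `3 * L`, is at least the value of the left side at `n`) -/
theorem prec_of_finite {A B : Set ℕ} (h : (A \ B).Finite) :
    Prec (lefGrowth {tE A, aE A}) (lefGrowth {tE B, aE B}) := by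
  obtain ⟨b, hb⟩ := h.bddAbove
  have hAB : ∀ i, b + 1 ≤ i → i ∈ A → i ∈ B := by
    intro i hi hiA
    by_contra hiB
    have := hb ⟨hiA, hiB⟩
    omega
  have hgm : ∀ m n : ℕ, m ≤ n → lefGrowth {tE B, aE B} m ≤ lefGrowth {tE B, aE B} n :=
    fun m n hmn => lefGrowth_mono (isLEF_Gam B) (finGen_gen B).1 hmn
  have hfm : ∀ m n : ℕ, m ≤ n → lefGrowth {tE A, aE A} m ≤ lefGrowth {tE A, aE A} n :=
    fun m n hmn => lefGrowth_mono (isLEF_Gam A) (finGen_gen A).1 hmn
  set L := lefGrowth {tE A, aE A} (r (b + 1)) with hL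
  refine ⟨6144 + 3 * (L : ℝ), by positivity, fun x hx => ?_⟩
  rcases le_or_gt x 1 with h1 | h1
  · have hx1 : ⌈x⌉₊ = 1 := by
      apply le_antisymm
      · exact Nat.ceil_le.2 (by exact_mod_cast h1)
      · exact Nat.succ_le_of_lt (Nat.ceil_pos.2 hx)
    rw [hx1]
    refine (lefGrowth_one_le A B).trans (hgm _ _ ?_)
    exact Nat.succ_le_of_lt (Nat.ceil_pos.2 (by positivity))
  · have hn1 : 1 ≤ ⌈x⌉₊ := Nat.succ_le_of_lt (Nat.ceil_pos.2 hx)
    have hlt : (⌈x⌉₊ : ℝ) < 2 * x := by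
      have := Nat.ceil_lt_add_one hx.le
      linarith
    by_cases hb' : r (b + 1) < 6 * ⌈x⌉₊ + 2
    · refine (key_le hAB hn1 hb').trans (hgm _ _ ?_)
      have : ((3072 * ⌈x⌉₊ : ℕ) : ℝ) ≤ (6144 + 3 * (L : ℝ)) * x := by
        push_cast
        have hL0 : (0 : ℝ) ≤ 3 * (L : ℝ) * x := by positivity
        nlinarith
      exact_mod_cast this.trans (Nat.le_ceil _)
    · have h2 : lefGrowth {tE A, aE A} ⌈x⌉₊ ≤ L := hfm _ _ (by omega)
      refine h2.trans ((Nat.lt_two_pow_self (n := L)).le.trans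
        ((two_pow_le_lefGrowth B (L := L) (R := 3 * L) le_rfl).trans (hgm _ _ ?_)))
      have : ((3 * L : ℕ) : ℝ) ≤ (6144 + 3 * (L : ℝ)) * x := by
        push_cast
        have hL0 : (0 : ℝ) ≤ 3 * (L : ℝ) := by positivity
        nlinarith
      exact_mod_cast this.trans (Nat.le_ceil _)

end Pool.Agent.Lib.MP_bb1fdc_al
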