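import Pool.Agent.Lib.MP_bb1fdc_al.Defs

/-!
# The parameters
-/

namespace Pool.Agent.Lib.MP_bb1fdc_al

open Nat

/-- the number of points of a class in block `i` -/
def s (i : ℕ) : ℕ := i + 6

/-- the number of classes in block `i` -/
def r : ℕ → ℕ
  | 0 => 8
  | i + 1 => r i * (r i * s i)!

/-- the size of block `i` -/
def NN (i : ℕ) : ℕ := r i * s i

open Classical in
/-- the number of points of a class in block `i` for the set `A` -/
noncomputable def sg (A : Set ℕ) (i : ℕ) : ℕ := if i ∈ A then s i else 2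

/-- the size of block `i` for the set `A` -/
noncomputable def md (A : Set ℕ) (i : ℕ) : ℕ := r i * sg A i

private theorem r_succ (i : ℕ) : r (i + 1) = r i * (NN i)! := rfl

theorem eight_le_r (i : ℕ) : 8 ≤ r i := by
  induction i with
  | zero => exact le_refl 8
  | succ i ih =>
    rw [r_succ]
    exact le_trans ih (Nat.le_mul_of_pos_right _ (Nat.factorial_pos _))

private theorem r_pos (i : ℕ) : 0 < r i := lt_of_lt_of_le (by norm_num) (eight_le_r i)

private theorem six_le_s (i : ℕ) : 6 ≤ s i := by unfold s; omega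

theorem NN_le_r_succ (i : ℕ) : NN i ≤ r (i + 1) := by
  rw [r_succ]
  calc NN i ≤ (NN i)! := Nat.self_le_factorial _
    _ ≤ r i * (NN i)! := Nat.le_mul_of_pos_left _ (r_pos i)

theorem two_mul_r_le_r_succ (i : ℕ) : 2 * r i ≤ r (i + 1) := by
  refine le_trans ?_ (NN_le_r_succ i)
  unfold NN
  rw [mul_comm]
  exact Nat.mul_le_mul_left _ (le_trans (by norm_num) (six_le_s i))

theorem r_strictMono : StrictMono r := by
  refine strictMono_nat_of_lt_succ (fun i => ?_)
  have h1 := two_mul_r_le_r_succ i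
  have h2 := r_pos i
  omega

theorem r_dvd {k i : ℕ} (h : k ≤ i) : r k ∣ r i := by
  induction i, h using Nat.le_induction with
  | base => exact dvd_refl _
  | succ i _ ih =>
    rw [r_succ]
    exact Dvd.dvd.mul_right ih _

theorem two_le_sg (A : Set ℕ) (i : ℕ) : 2 ≤ sg A i := by
  unfold sg
  split
  · exact le_trans (by norm_num) (six_le_s i)
  · exact le_refl 2

theorem sg_le_s (A : Set ℕ) (i : ℕ) : sg A i ≤ s i := by
  unfold sg
  split
  · exact le_refl _
  · exact le_trans (by norm_num) (six_le_s i)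

theorem sg_of_mem {A : Set ℕ} {i : ℕ} (h : i ∈ A) : sg A i = s i := by
  unfold sg
  rw [if_pos h]

theorem sg_of_notMem {A : Set ℕ} {i : ℕ} (h : i ∉ A) : sg A i = 2 := by
  unfold sg
  rw [if_neg h]

theorem md_pos (A : Set ℕ) (i : ℕ) : 0 < md A i :=
  Nat.mul_pos (r_pos i) (lt_of_lt_of_le (by norm_num) (two_le_sg A i))

theorem md_of_mem {A : Set ℕ} {i : ℕ} (h : i ∈ A) : md A i = NN i := by
  unfold md NN
  rw [sg_of_mem h]

theorem md_le_NN (A : Set ℕ) (i : ℕ) : md A i ≤ NN i :=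
  Nat.mul_le_mul_left _ (sg_le_s A i)

theorem two_mul_r_le_md (A : Set ℕ) (i : ℕ) : 2 * r i ≤ md A i := by
  unfold md
  rw [mul_comm]
  exact Nat.mul_le_mul_left _ (two_le_sg A i)

/-- (`sg A k ≤ s k ≤ r k * s k`, so `sg A k ∣ (r k * s k)!`) -/
theorem md_dvd_r (A : Set ℕ) {k i : ℕ} (h : k < i) : md A k ∣ r i := by
  refine dvd_trans ?_ (r_dvd (show k + 1 ≤ i from h))
  rw [r_succ]
  unfold md
  refine mul_dvd_mul_left _ (Nat.dvd_factorial ?_ ?_)
  · exact lt_of_lt_of_le (by norm_num) (two_le_sg A k)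
  · exact le_trans (sg_le_s A k) (Nat.le_mul_of_pos_left _ (r_pos k))

theorem prod_factorial_le (i : ℕ) : ∏ k ∈ Finset.range i, (NN k)! ≤ r i := by
  induction i with
  | zero => simp [r]
  | succ i ih =>
    rw [Finset.prod_range_succ, r_succ]
    exact Nat.mul_le_mul_right _ ih

/-- the index used for the radius `n` -/
theorem exists_index {n : ℕ} (hn : 1 ≤ n) :
    ∃ i, 6 * n + 2 ≤ r (i + 1) ∧ r i ≤ 6 * n + 2 ∧ ∀ i0, r i0 < 6 * n + 2 → i0 ≤ i := by
  classical
  have hex : ∃ j, 6 * n + 2 ≤ r (j + 1) :=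
    ⟨6 * n + 2, le_trans (Nat.le_succ _) (r_strictMono.id_le (6 * n + 2 + 1))⟩
  refine ⟨Nat.find hex, Nat.find_spec hex, ?_, ?_⟩
  · rcases Nat.eq_zero_or_pos (Nat.find hex) with h0 | h0
    · rw [h0]
      have : r 0 = 8 := rfl
      omega
    · obtain ⟨j, hj⟩ := Nat.exists_eq_succ_of_ne_zero h0.ne'
      have h1 := Nat.find_min hex (m := j) (by omega)
      rw [hj]
      exact (not_le.mp h1).le
  · intro i0 hi0
    by_contra hlt
    have h1 : Nat.find hex + 1 ≤ i0 := by omega
    have h2 := r_strictMono.monotone h1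
    have h3 := Nat.find_spec hex
    omega

theorem exists_le_r (m i : ℕ) : ∃ k, i < k ∧ m ≤ r k :=
  ⟨max m (i + 1), lt_of_lt_of_le (Nat.lt_succ_self i) (le_max_right _ _),
    le_trans (le_max_left _ _) (r_strictMono.id_le _)⟩

end Pool.Agent.Lib.MP_bb1fdc_al
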