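import Pool.Agent.Lib.MP_bb1fdc_al.Norm

/-!
# Whether a short word is trivial depends only on the pattern of its transpositions
-/

namespace Pool.Agent.Lib.MP_bb1fdc_al

private theorem pattern_swap {E F : Type} [DecidableEq E] [DecidableEq F] (D : Set E) (f : E → F)
    (hf : Set.InjOn f D) {a b y : E} (ha : a ∈ D) (hb : b ∈ D) (hy : y ∈ D) :
    Equiv.swap a b y ∈ D ∧ Equiv.swap (f a) (f b) (f y) = f (Equiv.swap a b y) := by
  by_cases h1 : y = a
  · subst h1
    rw [Equiv.swap_apply_left, Equiv.swap_apply_left]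
    exact ⟨hb, rfl⟩
  by_cases h2 : y = b
  · subst h2
    rw [Equiv.swap_apply_right, Equiv.swap_apply_right]
    exact ⟨ha, rfl⟩
  rw [Equiv.swap_apply_of_ne_of_ne h1 h2, Equiv.swap_apply_of_ne_of_ne
    (fun h => h1 (hf hy ha h)) (fun h => h2 (hf hy hb h))]
  exact ⟨hy, rfl⟩

private theorem pattern_cons {E : Type} [DecidableEq E] (α β : ℤ → E) (q : ℤ) (l : List ℤ)
    (z : E) : prodSwap α β (q :: l) z = Equiv.swap (α q) (β q) (prodSwap α β l z) := by
  rw [prodSwap, prodSwap, List.map_cons, List.prod_cons, Equiv.Perm.mul_apply]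

private theorem pattern_nil {E : Type} [DecidableEq E] (α β : ℤ → E) (z : E) :
    prodSwap α β [] z = z := by
  rw [prodSwap, List.map_nil, List.prod_nil, Equiv.Perm.one_apply]

/-- the product of transpositions in `E` (points in `D`) and its image in `ZMod N` under a map
that is injective on `D`; the product maps `D` to `D` -/
theorem prodSwap_apply {E : Type} [DecidableEq E] {N r : ℕ} (α β : ℤ → E) (D : Set E)
    (f : E → ZMod N) (hf : Set.InjOn f D) (l : List ℤ)
    (hα : ∀ q ∈ l, α q ∈ D ∧ f (α q) = (q : ZMod N))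
    (hβ : ∀ q ∈ l, β q ∈ D ∧ f (β q) = (q : ZMod N) + (r : ZMod N)) (z : E) (hz : z ∈ D) :
    prodSwap α β l z ∈ D ∧
      prodSwap (fun q : ℤ => (q : ZMod N)) (fun q : ℤ => (q : ZMod N) + (r : ZMod N)) l (f z) =
        f (prodSwap α β l z) := by
  induction l with
  | nil => rw [pattern_nil, pattern_nil]; exact ⟨hz, rfl⟩
  | cons q l ih =>
    obtain ⟨h1, h2⟩ := ih (fun q hq => hα q (List.mem_cons_of_mem _ hq))
      (fun q hq => hβ q (List.mem_cons_of_mem _ hq))
    obtain ⟨a1, a2⟩ := hα q List.mem_cons_self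
    obtain ⟨b1, b2⟩ := hβ q List.mem_cons_self
    rw [pattern_cons, pattern_cons, h2]
    have h3 := pattern_swap D f hf a1 b1 h1
    rw [a2, b2] at h3
    exact h3

/-- a point outside the image of `D` is fixed -/
theorem prodSwap_fix {E : Type} {N r : ℕ} (D : Set E) (f : E → ZMod N) (α β : ℤ → E) (l : List ℤ)
    (hα : ∀ q ∈ l, α q ∈ D ∧ f (α q) = (q : ZMod N))
    (hβ : ∀ q ∈ l, β q ∈ D ∧ f (β q) = (q : ZMod N) + (r : ZMod N)) (z : ZMod N)
    (hz : z ∉ f '' D) :
    prodSwap (fun q : ℤ => (q : ZMod N)) (fun q : ℤ => (q : ZMod N) + (r : ZMod N)) l z = z := by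
  induction l with
  | nil => rw [pattern_nil]
  | cons q l ih =>
    rw [pattern_cons, ih (fun q hq => hα q (List.mem_cons_of_mem _ hq))
      (fun q hq => hβ q (List.mem_cons_of_mem _ hq))]
    obtain ⟨a1, a2⟩ := hα q List.mem_cons_self
    obtain ⟨b1, b2⟩ := hβ q List.mem_cons_self
    refine Equiv.swap_apply_of_ne_of_ne ?_ ?_
    · rintro rfl
      exact hz ⟨α q, a1, a2⟩
    · rintro rfl
      exact hz ⟨β q, b1, b2⟩

/-- a word of length at most `m` is trivial iff its exponent sum is `0` and its pattern is trivial -/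
theorem evC_eq_one_iff {E : Type} [DecidableEq E] {N r m : ℕ} (α β : ℤ → E) (D : Set E)
    (f : E → ZMod N) (hf : Set.InjOn f D)
    (hα : ∀ q : ℤ, |q| ≤ m → α q ∈ D ∧ f (α q) = (q : ZMod N))
    (hβ : ∀ q : ℤ, |q| ≤ m → β q ∈ D ∧ f (β q) = (q : ZMod N) + (r : ZMod N))
    (z0 : ZMod N) (hz0 : z0 ∉ f '' D) (hmN : m < N) (w : List (Fin 3)) (hw : w.length ≤ m) :
    evC N r w = 1 ↔ expo w = 0 ∧ ∀ z ∈ D, prodSwap α β (pts 0 w) z = z := by
  have hle : ∀ q ∈ pts 0 w, |q| ≤ (m : ℤ) := fun q hq =>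
    (abs_le_of_mem_pts w q hq).trans (by exact_mod_cast hw)
  have hα' : ∀ q ∈ pts 0 w, α q ∈ D ∧ f (α q) = (q : ZMod N) := fun q hq => hα q (hle q hq)
  have hβ' : ∀ q ∈ pts 0 w, β q ∈ D ∧ f (β q) = (q : ZMod N) + (r : ZMod N) :=
    fun q hq => hβ q (hle q hq)
  have hfix := prodSwap_fix (r := r) D f α β (pts 0 w) hα' hβ'
  have happ := prodSwap_apply (r := r) α β D f hf (pts 0 w) hα' hβ'
  rw [evC_eq]
  constructor
  · intro h
    have he : expo w = 0 := by
      have h1 := congrArg (fun g : Equiv.Perm (ZMod N) => g (z0 - (expo w : ZMod N))) h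
      simp only [Equiv.Perm.mul_apply, Equiv.Perm.one_apply, tt_zpow_apply] at h1
      rw [sub_add_cancel, hfix z0 hz0] at h1
      have h2 : ((expo w : ℤ) : ZMod N) = 0 := by
        have h3 := h1
        rw [eq_comm, sub_eq_self] at h3
        exact h3
      rw [ZMod.intCast_zmod_eq_zero_iff_dvd] at h2
      refine Int.eq_zero_of_abs_lt_dvd h2 ?_
      have h4 := abs_expo_le w
      have h5 : (w.length : ℤ) ≤ m := by exact_mod_cast hw
      have h6 : (m : ℤ) < N := by exact_mod_cast hmN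
      omega
    refine ⟨he, fun z hz => ?_⟩
    rw [he, zpow_zero, mul_one] at h
    obtain ⟨h1, h2⟩ := happ z hz
    rw [h, Equiv.Perm.one_apply] at h2
    exact (hf hz h1 h2).symm
  · rintro ⟨he, h⟩
    rw [he, zpow_zero, mul_one]
    ext z
    rw [Equiv.Perm.one_apply]
    by_cases hz : z ∈ f '' D
    · obtain ⟨y, hy, rfl⟩ := hz
      rw [(happ y hy).2, h y hy]
    · exact hfix z hz

end Pool.Agent.Lib.MP_bb1fdc_al
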