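import Pool.Agent.Lib.MP_bb1fdc_al.Gam
import Pool.Agent.Lib.MP_bb1fdc_al.YwEv
import Pool.Agent.Lib.MP_bb1fdc_al.Commut

/-!
# Elements of the group with support in one block
-/

namespace Pool.Agent.Lib.MP_bb1fdc_al

/-- the point number `x` of class `c` of block `i` -/
noncomputable def pos (A : Set ℕ) (i M : ℕ) (c : Fin (r i)) (x : Fin M) : ZMod (md A i) :=
  ((c.val + x.val * r i : ℕ) : ZMod (md A i))

private lemma pure_le_md {A : Set ℕ} {i M : ℕ} (hi : i ∈ A) (hM : M ≤ s i) :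
    r i * M ≤ md A i := by
  rw [md_of_mem hi]
  exact Nat.mul_le_mul_left _ hM

private lemma pure_lt {i M : ℕ} (c : Fin (r i)) (x : Fin M) :
    c.val + x.val * r i < r i * M := by
  have h1 := c.2
  have h2 : (x.val + 1) * r i ≤ M * r i := Nat.mul_le_mul_right _ x.2
  have h3 : (x.val + 1) * r i = x.val * r i + r i := by ring
  have h4 : M * r i = r i * M := by ring
  omega

/-- (`c + x r < r M ≤ md A i`) -/
theorem pos_inj {A : Set ℕ} {i M : ℕ} (hi : i ∈ A) (hM : M ≤ s i) {c c' : Fin (r i)}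
    {x x' : Fin M} (h : pos A i M c x = pos A i M c' x') : c = c' ∧ x = x' := by
  unfold pos at h
  have hmd := pure_le_md hi hM
  have hr := eight_le_r i
  rw [ZMod.natCast_eq_natCast_iff'] at h
  rw [Nat.mod_eq_of_lt ((pure_lt c x).trans_le hmd),
    Nat.mod_eq_of_lt ((pure_lt c' x').trans_le hmd)] at h
  have h1 : c.val = c'.val := by
    have := congrArg (· % r i) h
    simp only [Nat.add_mul_mod_self_right] at this
    rwa [Nat.mod_eq_of_lt c.2, Nat.mod_eq_of_lt c'.2] at this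
  have h2 : x.val * r i = x'.val * r i := by omega
  exact ⟨Fin.ext h1, Fin.ext (Nat.eq_of_mul_eq_mul_right (by omega) h2)⟩

/-- the element of `Gam A` for a transposition of block `i` -/
noncomputable def yE (A : Set ℕ) (i c x x' : ℕ) : Gam A := ev (tE A) (aE A) (yw (r i) c x x')

/-- the element of `Gam A` for a three-cycle of block `i` -/
noncomputable def xE (A : Set ℕ) (i c u v w : ℕ) : Gam A := ev (tE A) (aE A) (xw (r i) c u v w)

theorem yE_self {A : Set ℕ} {i M : ℕ} (hi : i ∈ A) (hM : M ≤ s i) (c : Fin (r i)) (x x' : Fin M)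
    (h : x ≠ x') :
    (yE A i c x x' : Amb A) i = Equiv.swap (pos A i M c x) (pos A i M c x') := by
  unfold yE
  rw [ev_coord]
  exact evC_yw_own c.2 x.2 x'.2 (fun e => h (Fin.ext e)) (pure_le_md hi hM)

private lemma pure_xw {A : Set ℕ} (i c u v w k : ℕ) :
    (xE A i c u v w : Amb A) k = evC (md A k) (r k) (yw (r i) c u v) *
      evC (md A k) (r k) (yw (r i) c u w) * evC (md A k) (r k) (yw (r i) c u v) *
      evC (md A k) (r k) (yw (r i) c u w) := by
  unfold xE
  rw [ev_coord]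
  unfold xw evC
  rw [ev_append, ev_append, ev_append]

theorem xE_self {A : Set ℕ} {i M : ℕ} (hi : i ∈ A) (hM : M ≤ s i) (c : Fin (r i))
    (u v w : Fin M) (h1 : u ≠ v) (h2 : u ≠ w) :
    (xE A i c u v w : Amb A) i = com3 (pos A i M c u) (pos A i M c v) (pos A i M c w) := by
  rw [pure_xw, evC_yw_own c.2 u.2 v.2 (fun e => h1 (Fin.ext e)) (pure_le_md hi hM),
    evC_yw_own c.2 u.2 w.2 (fun e => h2 (Fin.ext e)) (pure_le_md hi hM)]
  rfl

/-- (`evC_xw_high` for `k > i`, `evC_xw_low` for `k < i`) -/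
theorem xE_of_ne {A : Set ℕ} {i M : ℕ} (hM : M ≤ s i) (c : Fin (r i)) (u v w : Fin M)
    (h1 : u ≠ v) (h2 : u ≠ w) {k : ℕ} (hk : k ≠ i) : (xE A i c u v w : Amb A) k = 1 := by
  unfold xE
  rw [ev_coord]
  rcases lt_or_gt_of_ne hk with hlt | hgt
  · exact evC_xw_low _ _ _ _ (md_dvd_r A hlt)
  · refine evC_xw_high c.2 u.2 v.2 w.2 (fun e => h1 (Fin.ext e)) (fun e => h2 (Fin.ext e)) ?_
      (two_mul_r_le_md A k)
    have h3 : r (i + 1) ≤ r k := r_strictMono.monotone hgt
    exact ((Nat.mul_le_mul_left _ hM).trans (NN_le_r_succ i)).trans h3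

end Pool.Agent.Lib.MP_bb1fdc_al
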