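import Pool.Agent.Lib.MP_bb1fdc_al.Gam
import Pool.Agent.Lib.MP_bb1fdc_al.Lamp
import Pool.Agent.Lib.MP_bb1fdc_al.Part

/-!
# Short words
-/

namespace Pool.Agent.Lib.MP_bb1fdc_al

open Nat

/-- the number of points of a class of block `i` seen by the ball of radius `n` -/
noncomputable def sn (A : Set ℕ) (i n : ℕ) : ℕ := min (sg A i) ((6 * n + 2) / r i + 2)

theorem sn_pos (A : Set ℕ) (i n : ℕ) : 0 < sn A i n := by
  unfold sn
  have := two_le_sg A i
  exact lt_min (by omega) (Nat.succ_pos _)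

private lemma short_block (A : Set ℕ) (i n : ℕ) (w : List (Fin 3)) (hw : w.length ≤ 3 * n) :
    evC (r i * sn A i n) (r i) w = 1 ↔ evC (md A i) (r i) w = 1 := by
  have hr := eight_le_r i
  rcases le_total (sg A i) ((6 * n + 2) / r i + 2) with h | h
  · have : sn A i n = sg A i := min_eq_left h
    rw [this]
    rfl
  · have hs : sn A i n = (6 * n + 2) / r i + 2 := min_eq_right h
    have h1 : 6 * n + 2 < r i * ((6 * n + 2) / r i + 1) := Nat.lt_mul_div_succ _ (by omega)
    have h2 : r i * ((6 * n + 2) / r i + 2) = r i * ((6 * n + 2) / r i + 1) + r i := by ring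
    have h3 : r i * sn A i n ≤ md A i := by
      rw [hs]
      exact Nat.mul_le_mul_left _ h
    refine part_iff (m := 3 * n) ?_ ?_ w hw
    · rw [hs]; omega
    · rw [hs] at h3; omega

private lemma short_lamp (A : Set ℕ) {k n : ℕ} (h : 6 * n + 2 ≤ r k) (w : List (Fin 3))
    (hw : w.length ≤ 3 * n) :
    evC (md A k) (r k) w = 1 ↔ evC (2 * (6 * n + 2)) (6 * n + 2) w = 1 := by
  have h2 := two_mul_r_le_md A k
  exact lamp_iff (m := 3 * n) (by omega) (by omega) (by omega) (by omega) w hw

/-- Words of length at most `3 n` in the blocks `< i` (exactly), `i` (`part_iff`, or no change) and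
`> i` (all equal to a lamp block by `lamp_iff` with `m = 3 n`). -/
theorem ev_eq_one_iff_short (A : Set ℕ) {i n : ℕ} (h : 6 * n + 2 ≤ r (i + 1)) (w : List (Fin 3))
    (hw : w.length ≤ 3 * n) :
    ev (tE A) (aE A) w = 1 ↔ (∀ k : Fin i, evC (md A k) (r k) w = 1) ∧
      evC (r i * sn A i n) (r i) w = 1 ∧ evC (2 * (6 * n + 2)) (6 * n + 2) w = 1 := by
  rw [ev_eq_one_iff, short_block A i n w hw, ← short_lamp A h w hw]
  constructor
  · intro H
    exact ⟨fun k => H k, H i, H (i + 1)⟩
  · rintro ⟨H1, H2, H3⟩ k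
    rcases lt_trichotomy k i with hk | rfl | hk
    · exact H1 ⟨k, hk⟩
    · exact H2
    · have hk' : r (i + 1) ≤ r k := r_strictMono.monotone hk
      rw [short_lamp A (h.trans hk') w hw, ← short_lamp A h w hw]
      exact H3

end Pool.Agent.Lib.MP_bb1fdc_al
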