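import Pool.Agent.Lib.MP_bb1fdc_al.Cyc

/-!
# Words for transpositions and for three-cycles
-/

namespace Pool.Agent.Lib.MP_bb1fdc_al

/-- a word for the transposition `(0, (j + 1) r)` -/
def tau (r : ℕ) : ℕ → List (Fin 3)
  | 0 => [2]
  | j + 1 => [2] ++ cj r (tau r j) ++ [2]

/-- a word for the transposition `(c + x r, c + x' r)` -/
def yw (r c x x' : ℕ) : List (Fin 3) := cj (c + min x x' * r) (tau r (max x x' - min x x' - 1))

/-- a word for the three-cycle on `c + u r`, `c + v r`, `c + w r` -/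
def xw (r c u v w : ℕ) : List (Fin 3) := yw r c u v ++ yw r c u w ++ yw r c u v ++ yw r c u w

theorem length_tau (r j : ℕ) : (tau r j).length = 1 + (2 * r + 2) * j := by
  induction j with
  | zero => rfl
  | succ j ih =>
    simp only [tau, List.length_append, length_cj, ih, List.length_cons, List.length_nil]
    ring

theorem length_yw_le {r c x x' M : ℕ} (hc : c < r) (hx : x < M) (hx' : x' < M) (h : x ≠ x') :
    (yw r c x x').length ≤ 4 * (r * M) := by
  rw [yw, length_cj, length_tau]
  have h1 : min x x' < max x x' := min_lt_max.mpr h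
  have h2 : max x x' < M := max_lt hx hx'
  generalize min x x' = a at *
  generalize max x x' = b at *
  obtain ⟨d, rfl⟩ : ∃ d, b = a + 1 + d := ⟨b - (a + 1), by omega⟩
  obtain ⟨e, rfl⟩ : ∃ e, M = a + 1 + d + 1 + e := ⟨M - (a + 1 + d + 1), by omega⟩
  obtain ⟨s, rfl⟩ : ∃ s, r = c + 1 + s := ⟨r - (c + 1), by omega⟩
  have h3 : a + 1 + d - a - 1 = d := by omega
  rw [h3]
  nlinarith [Nat.zero_le (a * c), Nat.zero_le (a * s), Nat.zero_le (d * c), Nat.zero_le (d * s),
    Nat.zero_le (e * c), Nat.zero_le (e * s), Nat.zero_le a, Nat.zero_le c, Nat.zero_le d,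
    Nat.zero_le e, Nat.zero_le s]

theorem length_xw_le {r c u v w M : ℕ} (hc : c < r) (hu : u < M) (hv : v < M) (hw : w < M)
    (h1 : u ≠ v) (h2 : u ≠ w) : (xw r c u v w).length ≤ 16 * (r * M) := by
  have ha := length_yw_le hc hu hv h1
  have hb := length_yw_le hc hu hw h2
  simp only [xw, List.length_append]
  omega

end Pool.Agent.Lib.MP_bb1fdc_al
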