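import Pool.Agent.Lib.MP_bb1fdc_al.Tau

/-!
# Values of the words tau
-/

namespace Pool.Agent.Lib.MP_bb1fdc_al

private theorem tauEv_cast_ne {N a b : ℕ} (ha : a < N) (hb : b < N) (h : a ≠ b) :
    (a : ZMod N) ≠ (b : ZMod N) := by
  intro he
  have h1 := (ZMod.natCast_eq_natCast_iff' a b N).1 he
  rw [Nat.mod_eq_of_lt ha, Nat.mod_eq_of_lt hb] at h1
  exact h h1

private theorem tauEv_succ (N r' r j : ℕ) : evC N r' (tau r (j + 1)) =
    aa N r' * (tt N ^ r * evC N r' (tau r j) * (tt N ^ r)⁻¹) * aa N r' := by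
  show evC N r' ([2] ++ cj r (tau r j) ++ [2]) = _
  unfold evC
  rw [ev_append, ev_append, ev_a, ev_cj]

private theorem tauEv_zero (N r' r : ℕ) : evC N r' (tau r 0) = aa N r' := ev_a _ _

private theorem tauEv_conj (N r' : ℕ) (x y : ZMod N) :
    aa N r' * Equiv.swap x y * aa N r' = Equiv.swap (aa N r' x) (aa N r' y) := by
  rw [Equiv.swap_apply_apply (aa N r') x y]
  have h : (aa N r')⁻¹ = aa N r' := Equiv.swap_inv _ _
  rw [h]

/-- in the block itself (`a (r, (j + 2) r) a = (0, (j + 2) r)`) -/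
theorem evC_tau_own {N r j : ℕ} (hr : 0 < r) (h : (j + 1) * r < N) :
    evC N r (tau r j) = Equiv.swap 0 (((j + 1) * r : ℕ) : ZMod N) := by
  induction j with
  | zero =>
    rw [tauEv_zero, zero_add, one_mul]
    rfl
  | succ j ih =>
    have h1 : (j + 1) * r < (j + 1 + 1) * r := Nat.mul_lt_mul_of_pos_right (Nat.lt_succ_self _) hr
    have h2 : r < (j + 1 + 1) * r := by nlinarith
    rw [tauEv_succ, ih (h1.trans h), conj_swap_nat, tauEv_conj, zero_add]
    have e1 : aa N r ((r : ℕ) : ZMod N) = 0 := Equiv.swap_apply_right _ _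
    have e2 : (((j + 1) * r : ℕ) : ZMod N) + (r : ZMod N) = (((j + 1 + 1) * r : ℕ) : ZMod N) := by
      push_cast
      ring
    have h0 : (((j + 1 + 1) * r : ℕ) : ZMod N) ≠ 0 := by
      have := tauEv_cast_ne (N := N) (a := (j + 1 + 1) * r) (b := 0) h (by omega) (by omega)
      simpa using this
    have e3 : aa N r (((j + 1 + 1) * r : ℕ) : ZMod N) = (((j + 1 + 1) * r : ℕ) : ZMod N) :=
      Equiv.swap_apply_of_ne_of_ne h0 (tauEv_cast_ne h (h2.trans h) (by omega))
    rw [e2, e1, e3]

/-- in a higher block (the transpositions `(p, p + r')`, `0 ≤ p < r'`, commute) -/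
theorem evC_tau_high {N r' r j : ℕ} (hr : 0 < r) (h1 : j * r < r') (h2 : 2 * r' ≤ N) :
    evC N r' (tau r j) = Equiv.swap ((j * r : ℕ) : ZMod N) ((j * r + r' : ℕ) : ZMod N) := by
  induction j with
  | zero =>
    rw [tauEv_zero]
    simp only [zero_mul, zero_add, Nat.cast_zero]
    rfl
  | succ j ih =>
    have h3 : j * r + r = (j + 1) * r := by ring
    rw [tauEv_succ, ih (by omega), conj_swap_nat, tauEv_conj]
    have e1 : ((j * r : ℕ) : ZMod N) + (r : ZMod N) = (((j + 1) * r : ℕ) : ZMod N) := by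
      push_cast
      ring
    have e2 : ((j * r + r' : ℕ) : ZMod N) + (r : ZMod N) = (((j + 1) * r + r' : ℕ) : ZMod N) := by
      push_cast
      ring
    have f1 : aa N r' (((j + 1) * r : ℕ) : ZMod N) = (((j + 1) * r : ℕ) : ZMod N) := by
      refine Equiv.swap_apply_of_ne_of_ne ?_ (tauEv_cast_ne (by omega) (by omega) (by omega))
      have := tauEv_cast_ne (N := N) (a := (j + 1) * r) (b := 0) (by omega) (by omega) (by omega)
      simpa using this
    have f2 : aa N r' (((j + 1) * r + r' : ℕ) : ZMod N) = (((j + 1) * r + r' : ℕ) : ZMod N) := by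
      refine Equiv.swap_apply_of_ne_of_ne ?_ (tauEv_cast_ne (by omega) (by omega) (by omega))
      have := tauEv_cast_ne (N := N) (a := (j + 1) * r + r') (b := 0) (by omega) (by omega)
        (by omega)
      simpa using this
    rw [e1, e2, f1, f2]

/-- in a lower block (`t ^ r = 1`) -/
theorem evC_tau_low {N r' r : ℕ} (j : ℕ) (h : N ∣ r) : evC N r' (tau r j) = aa N r' := by
  induction j with
  | zero => exact tauEv_zero _ _ _
  | succ j ih =>
    rw [tauEv_succ, ih, tt_pow_eq_one h, one_mul, inv_one, mul_one, aa_mul_aa, one_mul]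

end Pool.Agent.Lib.MP_bb1fdc_al
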