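import Pool.Agent.Lib.MP_bb1fdc_al.Ball

/-!
# Words in t, its inverse and a (with a * a = 1)
-/

namespace Pool.Agent.Lib.MP_bb1fdc_al

variable {G H : Type} [Group G] [Group H]

/-- the letters `0, 1, 2` stand for `t, t⁻¹, a` -/
def letter (t a : G) : Fin 3 → G := ![t, t⁻¹, a]

/-- the value of a word -/
def ev (t a : G) (w : List (Fin 3)) : G := (w.map (letter t a)).prod

/-- the inverse word -/
def iw (w : List (Fin 3)) : List (Fin 3) := (w.map ![1, 0, 2]).reverse

/-- `t ^ p * w * t ^ (-p)` -/
def cj (p : ℕ) (w : List (Fin 3)) : List (Fin 3) :=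
  List.replicate p 0 ++ w ++ List.replicate p 1

theorem ev_nil (t a : G) : ev t a [] = 1 := by
  rfl

theorem ev_append (t a : G) (w w' : List (Fin 3)) : ev t a (w ++ w') = ev t a w * ev t a w' := by
  simp only [ev, List.map_append, List.prod_append]

theorem ev_a (t a : G) : ev t a [2] = a := by
  simp [ev, letter]

theorem ev_cj (t a : G) (p : ℕ) (w : List (Fin 3)) :
    ev t a (cj p w) = t ^ p * ev t a w * (t ^ p)⁻¹ := by
  have h0 : ∀ n : ℕ, ev t a (List.replicate n 0) = t ^ n := by
    intro n
    simp [ev, letter]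
  have h1 : ∀ n : ℕ, ev t a (List.replicate n 1) = (t ^ n)⁻¹ := by
    intro n
    simp [ev, letter]
  rw [cj, ev_append, ev_append, h0, h1]

theorem length_cj (p : ℕ) (w : List (Fin 3)) : (cj p w).length = 2 * p + w.length := by
  simp only [cj, List.length_append, List.length_replicate]
  omega

theorem length_iw (w : List (Fin 3)) : (iw w).length = w.length := by
  simp only [iw, List.length_reverse, List.length_map]

theorem ev_iw {t a : G} (ha : a * a = 1) (w : List (Fin 3)) : ev t a (iw w) = (ev t a w)⁻¹ := by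
  have hinv : a = a⁻¹ := eq_inv_of_mul_eq_one_left ha
  have hl : ∀ x : Fin 3, letter t a ((![1, 0, 2] : Fin 3 → Fin 3) x) = (letter t a x)⁻¹ := by
    intro x
    fin_cases x
    · rfl
    · exact (inv_inv t).symm
    · exact hinv
  induction w with
  | nil => simp [iw, ev]
  | cons x w ih =>
    have h1 : iw (x :: w) = iw w ++ [(![1, 0, 2] : Fin 3 → Fin 3) x] := by
      simp [iw]
    have h2 : ev t a (x :: w) = letter t a x * ev t a w := by
      simp [ev]
    have h3 : ev t a [(![1, 0, 2] : Fin 3 → Fin 3) x] = (letter t a x)⁻¹ := by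
      rw [← hl x]
      simp [ev]
    rw [h1, ev_append, ih, h2, h3, mul_inv_rev]

theorem ev_map (f : G →* H) (t a : G) (w : List (Fin 3)) : f (ev t a w) = ev (f t) (f a) w := by
  have hl : ∀ x : Fin 3, f (letter t a x) = letter (f t) (f a) x := by
    intro x
    fin_cases x
    · rfl
    · exact map_inv f t
    · rfl
  simp only [ev, map_list_prod, List.map_map]
  congr 1
  apply List.map_congr_left
  intro x _
  exact hl x

theorem ev_mem_ball (t a : G) {w : List (Fin 3)} {n : ℕ} (h : w.length ≤ n) :
    ev t a w ∈ ball {t, a} n := by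
  refine ⟨w.map (letter t a), by simpa using h, ?_, rfl⟩
  intro x hx
  obtain ⟨i, -, rfl⟩ := List.mem_map.1 hx
  fin_cases i
  · exact Or.inl (Set.mem_insert _ _)
  · refine Or.inr ?_
    have h1 : (letter t a 1)⁻¹ = t := inv_inv t
    show (letter t a 1)⁻¹ ∈ _
    rw [h1]
    exact Set.mem_insert _ _
  · exact Or.inl (Set.mem_insert_of_mem _ rfl)

theorem mem_ball_iff {t a : G} (ha : a * a = 1) {g : G} {n : ℕ} :
    g ∈ ball {t, a} n ↔ ∃ w : List (Fin 3), w.length ≤ n ∧ ev t a w = g := by
  have hinv : a = a⁻¹ := eq_inv_of_mul_eq_one_left ha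
  constructor
  · rintro ⟨l, hl, h2, rfl⟩
    have key : ∀ l : List G, (∀ x ∈ l, x ∈ ({t, a} : Set G) ∨ x⁻¹ ∈ ({t, a} : Set G)) →
        ∃ w : List (Fin 3), w.length = l.length ∧ ev t a w = l.prod := by
      intro l
      induction l with
      | nil => intro _; exact ⟨[], rfl, rfl⟩
      | cons x l ih =>
        intro h
        obtain ⟨w, hw1, hw2⟩ := ih fun y hy => h y (List.mem_cons_of_mem _ hy)
        obtain ⟨i, hi⟩ : ∃ i : Fin 3, letter t a i = x := by
          rcases h x List.mem_cons_self with h3 | h3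
          · rcases h3 with h3 | h3
            · exact ⟨0, h3.symm⟩
            · exact ⟨2, (Set.mem_singleton_iff.1 h3).symm⟩
          · rcases h3 with h3 | h3
            · exact ⟨1, by rw [← h3]; exact inv_inv x⟩
            · refine ⟨2, ?_⟩
              have h4 : x⁻¹ = a := Set.mem_singleton_iff.1 h3
              show a = x
              rw [hinv, ← h4]
              exact inv_inv x
        refine ⟨i :: w, by simp [hw1], ?_⟩
        have h4 : ev t a (i :: w) = letter t a i * ev t a w := by
          simp [ev]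
        rw [h4, hi, hw2, List.prod_cons]
    obtain ⟨w, hw1, hw2⟩ := key l h2
    exact ⟨w, hw1.trans_le hl, hw2⟩
  · rintro ⟨w, hw, rfl⟩
    exact ev_mem_ball t a hw

end Pool.Agent.Lib.MP_bb1fdc_al
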