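import Pool.Agent.Lib.MP_bb1fdc_al.Lamps

/-!
# Lamp words times their translates
-/

namespace Pool.Agent.Lib.MP_bb1fdc_al

/-- a lamp word times its translate -/
def zw (e : List Bool) : List (Fin 3) := iw (lampW e) ++ cj e.length (lampW e)

theorem length_zw_le (e : List Bool) : (zw e).length ≤ 8 * e.length := by
  have h1 := length_lampW_le e
  rw [zw, List.length_append, length_iw, length_cj]
  omega

private lemma zwEv_eq (N r' : ℕ) (e : List Bool) :
    evC N r' (zw e) = (evC N r' (lampW e))⁻¹ *
      (tt N ^ e.length * evC N r' (lampW e) * (tt N ^ e.length)⁻¹) := by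
  rw [evC, zw, ev_append, ev_iw (aa_mul_aa N r'), ev_cj]
  rfl

/-- blocks whose size divides the length do not see `zw` -/
theorem evC_zw_of_dvd {N r' : ℕ} (e : List Bool) (h : N ∣ e.length) : evC N r' (zw e) = 1 := by
  rw [zwEv_eq, tt_pow_eq_one h, inv_one, mul_one, one_mul, inv_mul_cancel]

/-- large blocks see all bits -/
theorem evC_zw_apply {N r' : ℕ} (e : List Bool) (h1 : 2 * e.length ≤ r') (h2 : 2 * r' ≤ N)
    (x : ℕ) (hx : x < e.length) :
    evC N r' (zw e) (x : ZMod N) =
      if e.getD x false = true then ((x + r' : ℕ) : ZMod N) else (x : ZMod N) := by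
  have hL : 0 < e.length := by omega
  have h3 : (tt N ^ e.length)⁻¹ (x : ZMod N) = ((N - e.length + x : ℕ) : ZMod N) := by
    rw [Equiv.Perm.inv_eq_iff_eq, tt_pow_apply]
    have h4 : ((N - e.length + x : ℕ) : ZMod N) + (e.length : ZMod N)
        = ((N - e.length + x + e.length : ℕ) : ZMod N) := by push_cast; ring
    rw [h4, show N - e.length + x + e.length = N + x by omega, Nat.cast_add, ZMod.natCast_self,
      zero_add]
  have h5 : evC N r' (lampW e) ((N - e.length + x : ℕ) : ZMod N)
      = ((N - e.length + x : ℕ) : ZMod N) := by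
    rw [evC_lampW e (by omega) (by omega) _ (by omega), if_neg (by omega), if_neg (by omega)]
  rw [zwEv_eq, Equiv.Perm.mul_apply, Equiv.Perm.mul_apply, Equiv.Perm.mul_apply, h3, h5, ← h3,
    ← Equiv.Perm.mul_apply (tt N ^ e.length), mul_inv_cancel, Equiv.Perm.one_apply,
    Equiv.Perm.inv_eq_iff_eq]
  split_ifs with h6
  · rw [evC_lampW e (by omega) (by omega) _ (by omega), if_neg (by omega),
      if_pos ⟨by omega, by omega, by rw [Nat.add_sub_cancel]; exact h6⟩, Nat.add_sub_cancel]
  · rw [evC_lampW e (by omega) (by omega) _ (by omega), if_neg (fun h => h6 h.2),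
      if_neg (by omega)]

end Pool.Agent.Lib.MP_bb1fdc_al
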